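import Pool.Agent.NRQ.TargetsC
import Pool.Agent.NRC.P_GDW
import Pool.Agent.NRC.P_SML
import Pool.Agent.NRC.P_NCV

/-!
# NRQ, target AL1: a small closed set on the first level gives a code
-/

set_option autoImplicit false

open Finset Classical

namespace Pool.Agent.NRQ

open Pool.Agent.Lib.Recon Pool.Agent.RNB Pool.Agent.NRC Pool.Agent.NRP

open NRC.GDW_ in
theorem p_AL1 : T_AL1 := by
  intro V _ G g q M A T0 Q hg hq hSc
  obtain ⟨hQP, hQM, hcl, y0, hy0, hreach⟩ := hSc
  have hQL : Q ⊆ LA G g q A := fun y hy => (mem_filter.1 (hQP hy)).1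
  rcases Nat.lt_or_ge Q.card 2 with h1 | h2
  · -- one vertex
    have hQ1 : Q.card = 1 := by
      have : 0 < Q.card := card_pos.2 ⟨y0, hy0⟩
      omega
    obtain ⟨v, hv⟩ := card_eq_one.1 hQ1
    have hvQ : v ∈ Q := by
      rw [hv]
      exact mem_singleton_self v
    have hvL := mem_LA.1 (hQL hvQ)
    have hvA : v ∉ A := fun h => hvL.1 (mem_union_left _ h)
    obtain ⟨u, hu, huv⟩ := exists_mem_ne (s := cl G (A ∪ EE G g A) v) (by omega) v
    obtain ⟨hu1, hu2⟩ := mem_cl'.1 hu
    have huA : u ∉ A := fun h => hu1 (mem_union_left _ h)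
    refine ⟨v, hvA, ∅, ∅, u, decide (G.Adj u v), huv, by simp, Finset.Subset.refl _,
      Or.inl rfl, ?_⟩
    intro z hzv
    rw [if_neg (notMem_empty z)]
    by_cases h2 : z = u
    · rw [if_pos h2, decide_eq_true_iff, h2]
    rw [if_neg h2]
    by_cases h3 : z ∈ A
    · rw [if_pos h3]
      exact hu2 z (mem_union_left _ h3)
    rw [if_neg h3]
    have hzW : z ∉ Q := fun h => by
      rw [hv, mem_singleton] at h
      exact hzv h
    have h4 : 2 * g < (cl G (insert z A) v).card := by
      by_contra h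
      exact hzW (hcl v hvQ (mem_IN.2 ⟨h3, hzv, not_lt.1 h⟩))
    have huc : u ∈ cl G A v := mem_cl'.2 ⟨huA, fun b hb => hu2 b (mem_union_left _ hb)⟩
    have hbb : ∀ b ∈ A, (G.Adj b u ↔ G.Adj b v) := fun b hb =>
      (hu2 b (mem_union_left _ hb)).symm
    by_cases h5 : (sd G A v z u).card ≤ g
    · have h6 : ¬ (G.Adj z u ↔ G.Adj z v) := by
        intro h
        have h7 : cl G (insert z A) u = cl G (insert z A) v := by
          refine cl_congr fun b hb => ?_
          rcases mem_insert.1 hb with rfl | hb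
          · exact h
          · exact hbb b hb
        have h8 := card_sd (G := G) (A := A) (v := v) (z := z) (y := u)
        rw [h7] at h8
        omega
      tauto
    · have h6 : G.Adj z v ↔ G.Adj z u := by
        by_contra h
        have hzE : z ∈ EE G g A := by
          unfold EE
          rw [mem_filter]
          refine ⟨mem_univ _, h3, v, u, hvA, fun e => hzv e.symm, fun e => h2 e.symm, huc, h,
            by omega, ?_⟩
          have h8 := sd_card (G := G) (A := A) (v := v) (z := z) (y := u)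
          omega
        exact h (hu2 z (mem_union_right _ hzE))
      tauto
  · -- at least two vertices
    obtain ⟨v, hv, w, hw, hwv, hr⟩ := p_NCV V (fun a b => b ∈ IN G (2 * g) A a) Q y0 hy0 h2 hreach
    obtain ⟨hvA, w', u, b, S, hw', hu', hM, hS, hCod⟩ :=
      p_GDW p_SML V G g q M A Q hg hq hQL hcl hQM v hv w hw hwv hr
    exact ⟨v, hvA, BR G g A v w', S, u, b, hu', hM, hS, Or.inr ⟨w', hw', rfl⟩, hCod⟩

end Pool.Agent.NRQ
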