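import Pool.Agent.NRQ.TargetsC

/-!
# NRQ, BET: the other levels
-/

set_option autoImplicit false

open Finset Classical

namespace Pool.Agent.NRQ

open Pool.Agent Pool.Agent.Lib.Recon Pool.Agent.RNB Pool.Agent.NRC Pool.Agent.NRP

namespace BET_

theorem cl_anti {V : Type} [Fintype V] {G : SimpleGraph V} {B C : Finset V} (h : B ⊆ C) (v : V) :
    cl G C v ⊆ cl G B v := by
  intro y hy
  obtain ⟨-, h1, h2⟩ := mem_filter.1 hy
  exact mem_filter.2 ⟨mem_univ _, fun hB => h1 (h hB), fun b hb => h2 b (h hb)⟩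

end BET_

open BET_ in
/-- **BET** -/
theorem p_BET (h_CDW : T_CDW) (h_NCV : NRC.T_NCV) : T_BET := by
  intro V _ G g h q q2 d e qe M A T T0 Q hg he h1 h2 h3 h4 h5 hBs hRich hNr hT0 hSc
  obtain ⟨hQP, hQM, hcl, y0, hy0, hreach⟩ := hSc
  have hall : ∀ y ∈ Q, y ∉ T ∧ qe < (cl G (T ∪ EE G e T) y).card ∧
      8 * e < (cl G T y).card ∧ IN G (2 * e) T y ⊆ Q := by
    intro y hy
    have h6 := (mem_filter.1 (hQP hy)).1
    obtain ⟨-, h7, h8⟩ := mem_filter.1 h6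
    have h9 : (cl G (T ∪ EE G e T) y).card ≤ (cl G T y).card :=
      card_le_card (cl_anti subset_union_left y)
    exact ⟨fun hT => h7 (mem_union_left _ hT), h8, by omega, hcl y hy⟩
  have hpos : 1 ≤ Q.card := card_pos.2 ⟨y0, hy0⟩
  have main : ∀ v ∈ Q, (Q = {v} ∨ ∃ w ∈ Q, w ≠ v ∧ ∀ y ∈ Q, y ≠ v →
      Relation.ReflTransGen (fun a b => b ∈ Q ∧ b ≠ v ∧ b ∈ IN G (2 * e) T a) w y) →
      ∃ v, Cd G g h q2 d M A v := by
    intro v hv hw
    obtain ⟨u, hu, huv⟩ := exists_mem_ne (s := cl G (T ∪ EE G e T) v)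
      (by have := (hall v hv).2.1; omega) v
    exact ⟨v, h_CDW V G g h q q2 d e M A T Q u v hg he h1 h2 h3 h4 hBs hRich hNr (by omega) hQM
      hv huv hu (fun y hy => ⟨(hall y hy).1, (hall y hy).2.2.1, (hall y hy).2.2.2⟩) hw⟩
  by_cases h2Q : 2 ≤ Q.card
  · obtain ⟨v, hv, w, hw, hwv, h10⟩ := h_NCV V (fun a b => b ∈ IN G (2 * e) T a) Q y0 hy0 h2Q hreach
    exact main v hv (Or.inr ⟨w, hw, hwv, h10⟩)
  · have h11 : Q.card = 1 := by omega
    obtain ⟨v, hv⟩ := card_eq_one.1 h11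
    exact main v (by rw [hv]; exact mem_singleton_self v) (Or.inl hv)

end Pool.Agent.NRQ
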