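import Pool.Agent.NRQ.TargetsC

/-!
# NRQ-CDW: a small closed set gives a code
-/

set_option autoImplicit false

open Finset Classical

namespace Pool.Agent.NRQ

open Pool.Agent Pool.Agent.Lib.Recon Pool.Agent.RNB Pool.Agent.NRC Pool.Agent.NRP

namespace CDW_

variable {V : Type} [Fintype V]

theorem mem_cl' {G : SimpleGraph V} {B : Finset V} {v y : V} :
    y ∈ cl G B v ↔ y ∉ B ∧ ∀ b ∈ B, (G.Adj b v ↔ G.Adj b y) := by
  unfold cl
  rw [mem_filter]
  exact ⟨fun h => h.2, fun h => ⟨mem_univ _, h⟩⟩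

theorem cl_congr {G : SimpleGraph V} {B : Finset V} {u v : V}
    (h : ∀ b ∈ B, (G.Adj b u ↔ G.Adj b v)) : cl G B u = cl G B v := by
  ext y
  rw [mem_cl', mem_cl']
  constructor
  · rintro ⟨h1, h2⟩
    exact ⟨h1, fun b hb => (h b hb).symm.trans (h2 b hb)⟩
  · rintro ⟨h1, h2⟩
    exact ⟨h1, fun b hb => (h b hb).trans (h2 b hb)⟩

theorem mem_IN {G : SimpleGraph V} {k : ℕ} {A : Finset V} {y z : V} :
    z ∈ IN G k A y ↔ z ∉ A ∧ z ≠ y ∧ (cl G (insert z A) y).card ≤ k := by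
  unfold IN
  rw [mem_filter]
  exact ⟨fun h => h.2, fun h => ⟨mem_univ _, h⟩⟩

theorem RS_mono (G : SimpleGraph V) (g h q d : ℕ) (A : Finset V) (v a : V) {s t : ℕ}
    (hst : s ≤ t) : RS G g h q d A v s a ⊆ RS G g h q d A v t a := by
  induction hst with
  | refl => exact Subset.refl _
  | step _ ih => exact ih.trans subset_union_left

theorem RS_one {G : SimpleGraph V} {g h q d : ℕ} {A : Finset V} {v a b : V} {s : ℕ}
    (hs : 1 ≤ s) (hb : Hn G g h q d A v a b) : b ∈ RS G g h q d A v s a := by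
  refine RS_mono G g h q d A v a hs ?_
  show b ∈ RS G g h q d A v 0 a ∪
      univ.filter (fun b => ∃ c ∈ RS G g h q d A v 0 a, Hn G g h q d A v c b)
  refine mem_union_right _ (mem_filter.2 ⟨mem_univ _, a, ?_, hb⟩)
  show a ∈ ({a} : Finset V)
  exact mem_singleton_self a

end CDW_

open CDW_ in
/-- CDW. -/
theorem p_CDW (h_NAM : T_NAM) (h_STP : T_STP) : T_CDW := by
  intro V _ G g h q q2 d e s A T W u v hg he heg hgq hq2 hgq2 hBs hR hNr hs hWs hvW huv hu hW hc
  have hvT : v ∉ T := (hW v hvW).1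
  have hAT : A ∪ EE G g A ⊆ T := hBs.1
  have hvA : v ∉ A := fun hv => hvT (hAT (mem_union_left _ hv))
  obtain ⟨hu1, hu2⟩ := mem_cl'.1 hu
  have huT : u ∉ T := fun h1 => hu1 (mem_union_left _ h1)
  have hadj : ∀ a ∈ T, (G.Adj a u ↔ G.Adj a v) := fun a ha =>
    (hu2 a (mem_union_left _ ha)).symm
  have hucl : cl G T u = cl G T v := cl_congr hadj
  have huv' : u ∈ cl G T v := mem_cl'.2 ⟨huT, fun a ha => (hadj a ha).symm⟩
  have hdn : (dset G u v).card < d := hNr u v huT hvT huv hadj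
  have hnam : ∀ a b, a ∉ T → a ≠ v → b ≠ v → 8 * e < (cl G T a).card →
      b ∈ IN G (2 * e) T a → Hn G g h q2 d A v a b := by
    intro a b h1 h2 h3 h4 h5
    exact h_NAM V G g h q q2 d e A T v a b hg he heg hgq hq2 hgq2 hBs hR hNr hvT h1 h2 h3
      (mem_IN.1 h5).1 h4 h5
  -- the second root
  obtain ⟨w, hwv, hw⟩ : ∃ w, w ≠ v ∧ ∀ z, z ≠ v → z ∈ IN G (2 * e) T v →
      z ∈ RS G g h q2 d A v s w := by
    rcases hc with hc | ⟨w, hwW, hwv, hpath⟩
    · refine ⟨u, huv, fun z hz hz2 => ?_⟩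
      have h1 := (hW v hvW).2.2 hz2
      rw [hc, mem_singleton] at h1
      exact absurd h1 hz
    · refine ⟨w, hwv, fun z hz hz2 => ?_⟩
      have h1 := h_STP V G g h q2 d s A W v w (fun a b => b ∈ IN G (2 * e) T a) hWs hwW hwv
        hpath (fun a ha hav b hbv hb => hnam a b (hW a ha).1 hav hbv (hW a ha).2.1 hb)
      exact h1 (mem_erase.2 ⟨hz, (hW v hvW).2.2 hz2⟩)
  refine ⟨hvA, w, u, decide (G.Adj u v), dset G u v, hwv, huv, hdn.le, ?_, ?_⟩
  · intro z hz
    obtain ⟨hzu, hzv, hz2⟩ := mem_dset.1 hz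
    have hzTE : z ∉ T ∪ EE G e T := by
      intro h1
      exact hz2 (hu2 z h1).symm
    have hzT : z ∉ T := fun h1 => hzTE (mem_union_left _ h1)
    have hzE : z ∉ EE G e T := fun h1 => hzTE (mem_union_right _ h1)
    rcases le_or_gt (cl G (insert z T) v).card e with h1 | h1
    · refine mem_union_left _ (hw z hzv (mem_IN.2 ⟨hzT, hzv, by omega⟩))
    rcases le_or_gt (cl G (insert z T) u).card e with h2 | h2
    · refine mem_union_right _ (RS_one hs (hnam u z huT huv hzv ?_ (mem_IN.2 ⟨hzT, hzu, ?_⟩)))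
      · rw [hucl]
        exact (hW v hvW).2.1
      · omega
    · exfalso
      apply hzE
      unfold EE
      rw [mem_filter]
      exact ⟨mem_univ _, hzT, v, u, hvT, hzv.symm, hzu.symm, huv', fun h3 => hz2 h3.symm, h1, h2⟩
  · intro z hzv
    by_cases hzu : z = u
    · rw [if_pos hzu, decide_eq_true_iff, hzu]
    · rw [if_neg hzu]
      by_cases hzd : z ∈ dset G u v
      · rw [if_pos hzd]
        have h1 := (mem_dset.1 hzd).2.2
        tauto
      · rw [if_neg hzd]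
        have h1 : ¬ (z ≠ u ∧ z ≠ v ∧ ¬ (G.Adj z u ↔ G.Adj z v)) := fun h2 => hzd (mem_dset.2 h2)
        tauto

end Pool.Agent.NRQ
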