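import Pool.Agent.NRQ.TargetsC
import Pool.Agent.NRC.P_DCB

/-!
# NRQ: target DC1, the number of graphs with a code of the first level
-/

set_option autoImplicit false

open Finset Classical

namespace Pool.Agent.NRQ

open Pool.Agent Pool.Agent.Lib.Recon Pool.Agent.RNB Pool.Agent.NRC Pool.Agent.NRP

namespace DC1_

open Pool.Agent.NRC.DCB_ (Off sd_eq BR_eq)

variable {V : Type} [Fintype V]

/-- the set of a code -/
noncomputable def WW (G : SimpleGraph V) (g : ℕ) (A : Finset V) (v : V) : Option V → Finset V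
  | none => ∅
  | some w => BR G g A v w

theorem WW_eq {F K : SimpleGraph V} {v : V} (h : Off F K v) {A : Finset V} (hv : v ∉ A)
    (g : ℕ) (o : Option V) : WW K g A v o = WW F g A v o := by
  cases o with
  | none => rfl
  | some w => exact BR_eq h hv g w

/-- the code `(o, u, b, S)` describes the neighbours of `v` -/
def Co1 (G : SimpleGraph V) (g : ℕ) (A : Finset V) (v : V) (o : Option V) (u : V) (b : Bool)
    (S : Finset V) : Prop :=
  ∀ z, z ≠ v → (G.Adj z v ↔
    if z ∈ WW G g A v o then z ∈ S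
    else if z = u then b = true
    else if z ∈ A then G.Adj z u
    else (G.Adj z u ↔ ¬ (sd G A v z u).card ≤ g))

theorem inj {F K L : SimpleGraph V} {v : V} (hK : Off F K v) (hL : Off F L v) {A : Finset V}
    (hv : v ∉ A) {g : ℕ} {o : Option V} {u : V} {b : Bool} {S : Finset V} (hu : u ≠ v)
    (cK : Co1 K g A v o u b S) (cL : Co1 L g A v o u b S) : K = L := by
  have key : ∀ z, z ≠ v → (K.Adj z v ↔ L.Adj z v) := by
    intro z hz
    rw [cK z hz, cL z hz, WW_eq hK hv g o, WW_eq hL hv g o, sd_eq hK hv hz hu,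
      sd_eq hL hv hz hu, hK z u hz hu, hL z u hz hu]
  ext x y
  by_cases hx : x = v
  · by_cases hy : y = v
    · subst hx
      subst hy
      exact ⟨fun h => absurd h (K.loopless.irrefl _), fun h => absurd h (L.loopless.irrefl _)⟩
    · subst hx
      rw [K.adj_comm, L.adj_comm]
      exact key y hy
  · by_cases hy : y = v
    · subst hy
      exact key x hx
    · rw [hK x y hx hy, hL x y hx hy]

/-- the possible codes -/
noncomputable def codes (F : SimpleGraph V) (g M : ℕ) (A : Finset V) (v : V) :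
    Finset ((_ : Option V × V × Bool) × Finset V) :=
  (univ : Finset (Option V × V × Bool)).sigma fun p =>
    if (WW F g A v p.1).card ≤ M then (WW F g A v p.1).powerset else ∅

theorem card_codes (F : SimpleGraph V) (g M : ℕ) (A : Finset V) (v : V) :
    (codes F g M A v).card ≤ 4 * Fintype.card V ^ 2 * 2 ^ M := by
  have hn : 1 ≤ Fintype.card V := Fintype.card_pos_iff.2 ⟨v⟩
  unfold codes
  rw [card_sigma]
  calc ∑ p : Option V × V × Bool,
        (if (WW F g A v p.1).card ≤ M then (WW F g A v p.1).powerset else ∅).card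
      ≤ ∑ _p : Option V × V × Bool, 2 ^ M := by
        refine sum_le_sum fun p _ => ?_
        by_cases h : (WW F g A v p.1).card ≤ M
        · rw [if_pos h, card_powerset]
          exact Nat.pow_le_pow_right (by norm_num) h
        · rw [if_neg h, card_empty]
          exact Nat.zero_le _
    _ = 2 * ((Fintype.card V + 1) * Fintype.card V) * 2 ^ M := by
        rw [sum_const, card_univ, Fintype.card_prod, Fintype.card_prod, Fintype.card_bool,
          Fintype.card_option, smul_eq_mul]
        ring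
    _ ≤ 4 * Fintype.card V ^ 2 * 2 ^ M := by
        refine Nat.mul_le_mul_right _ ?_
        nlinarith

end DC1_

open DC1_ in
theorem p_DC1 : T_DC1 := by
  intro V _ F g M A v
  have hex : ∀ K ∈ univ.filter (fun K : SimpleGraph V =>
      (∀ x y, x ≠ v → y ≠ v → (K.Adj x y ↔ F.Adj x y)) ∧ Gd1 K g M A v),
      ∃ c : (_ : Option V × V × Bool) × Finset V, c ∈ codes F g M A v ∧ c.1.2.1 ≠ v ∧
        Co1 K g A v c.1.1 c.1.2.1 c.1.2.2 c.2 := by
    intro K hK
    obtain ⟨-, hoff, hv, W, S, u, b, hu, hM, hS, hW, hC⟩ := mem_filter.1 hK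
    obtain ⟨o, rfl⟩ : ∃ o, W = WW K g A v o := by
      rcases hW with hW | ⟨w, -, hW⟩
      · exact ⟨none, hW⟩
      · exact ⟨some w, hW⟩
    refine ⟨⟨(o, u, b), S⟩, ?_, hu, hC⟩
    have hB : WW K g A v o = WW F g A v o := WW_eq hoff hv g o
    rw [hB] at hM hS
    unfold codes
    rw [mem_sigma]
    refine ⟨mem_univ _, ?_⟩
    rw [if_pos hM]
    exact mem_powerset.2 hS
  haveI : Nonempty ((_ : Option V × V × Bool) × Finset V) := ⟨⟨(none, v, true), ∅⟩⟩
  choose! f hf using hex
  refine le_trans (card_le_card_of_injOn f (fun K hK => (hf K hK).1) ?_)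
    (card_codes F g M A v)
  intro K hK L hL he
  have hK' := mem_filter.1 (mem_coe.1 hK)
  have hL' := mem_filter.1 (mem_coe.1 hL)
  obtain ⟨-, huK, cK⟩ := hf K hK
  obtain ⟨-, huL, cL⟩ := hf L hL
  rw [← he] at cL
  exact inj hK'.2.1 hL'.2.1 hK'.2.2.1 huK cK cL

end Pool.Agent.NRQ
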