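import Pool.Agent.NRQ.TargetsC

/-!
# NRQ: target DCQ, the number of graphs with a code with hints
-/

set_option autoImplicit false

open Finset Classical

namespace Pool.Agent.NRQ

open Pool.Agent Pool.Agent.Lib.Recon Pool.Agent.RNB Pool.Agent.NRC Pool.Agent.NRP

namespace DCQ_

variable {V : Type} [Fintype V]

/-- the subsets of `R` with at most `d` elements -/
noncomputable def small (R : Finset V) (d : ℕ) : Finset (Finset V) :=
  R.powerset.filter (fun Z => Z.card ≤ d)

theorem card_small (R : Finset V) (d : ℕ) : (small R d).card ≤ (R.card + 1) ^ d := by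
  induction d with
  | zero =>
    rw [pow_zero]
    have h : small R 0 ⊆ {∅} := by
      intro Z hZ
      have h1 := (mem_filter.1 hZ).2
      rw [mem_singleton]
      exact card_eq_zero.1 (Nat.le_zero.1 h1)
    exact (card_le_card h).trans (card_singleton _).le
  | succ d ih =>
    have h : small R (d + 1) ⊆ image₂ (fun (Z : Finset V) (o : Option V) =>
        o.elim Z (fun x => insert x Z)) (small R d) (insertNone R) := by
      intro Z hZ
      obtain ⟨h1, h2⟩ := mem_filter.1 hZ
      have h1' := mem_powerset.1 h1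
      rw [mem_image₂]
      rcases Z.eq_empty_or_nonempty with h3 | ⟨x, hx⟩
      · refine ⟨∅, mem_filter.2 ⟨mem_powerset.2 (empty_subset _), ?_⟩, none, ?_, ?_⟩
        · rw [card_empty]
          exact Nat.zero_le _
        · exact none_mem_insertNone
        · exact h3.symm
      · refine ⟨Z.erase x, mem_filter.2 ⟨mem_powerset.2 ((erase_subset _ _).trans h1'), ?_⟩,
          some x, ?_, ?_⟩
        · rw [card_erase_of_mem hx]
          omega
        · exact some_mem_insertNone.2 (h1' hx)
        · exact insert_erase hx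
    refine (card_le_card h).trans ((card_image₂_le _ _ _).trans ?_)
    rw [card_insertNone, pow_succ]
    exact Nat.mul_le_mul_right _ ih

theorem inj {F K L : SimpleGraph V} {v : V}
    (hK : ∀ x y, x ≠ v → y ≠ v → (K.Adj x y ↔ F.Adj x y))
    (hL : ∀ x y, x ≠ v → y ≠ v → (L.Adj x y ↔ F.Adj x y)) {u : V} {b : Bool} {Z : Finset V}
    (hu : u ≠ v)
    (cK : ∀ z, z ≠ v → (K.Adj z v ↔
      if z = u then b = true else if z ∈ Z then ¬ K.Adj z u else K.Adj z u))
    (cL : ∀ z, z ≠ v → (L.Adj z v ↔
      if z = u then b = true else if z ∈ Z then ¬ L.Adj z u else L.Adj z u)) : K = L := by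
  have key : ∀ z, z ≠ v → (K.Adj z v ↔ L.Adj z v) := by
    intro z hz
    rw [cK z hz, cL z hz, hK z u hz hu, hL z u hz hu]
  ext x y
  by_cases hx : x = v
  · by_cases hy : y = v
    · subst hx
      subst hy
      exact ⟨fun h => absurd h (K.loopless.irrefl _), fun h => absurd h (L.loopless.irrefl _)⟩
    · subst hx
      rw [K.adj_comm, L.adj_comm]
      exact key y hy
  · by_cases hy : y = v
    · subst hy
      exact key x hx
    · rw [hK x y hx hy, hL x y hx hy]

/-- the possible codes -/
noncomputable def codes (F : SimpleGraph V) (g h q d s : ℕ) (A : Finset V) (v : V) :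
    Finset ((_ : V × V × Bool) × Finset V) :=
  (univ : Finset (V × V × Bool)).sigma fun p =>
    small (RS F g h q d A v s p.1 ∪ RS F g h q d A v s p.2.1) d

theorem card_codes (hR : T_RSC) (F : SimpleGraph V) (g h q d s : ℕ) (A : Finset V) (v : V) :
    (codes F g h q d s A v).card ≤
      2 * Fintype.card V ^ 2 * (2 * (h + h * (2 * g) * d + q * d + 1) ^ s + 1) ^ d := by
  unfold codes
  rw [card_sigma]
  calc ∑ p : V × V × Bool,
        (small (RS F g h q d A v s p.1 ∪ RS F g h q d A v s p.2.1) d).card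
      ≤ ∑ _p : V × V × Bool, (2 * (h + h * (2 * g) * d + q * d + 1) ^ s + 1) ^ d := by
        refine sum_le_sum fun p _ => (card_small _ _).trans (Nat.pow_le_pow_left ?_ d)
        have h1 := hR V F g h q d A v s p.1
        have h2 := hR V F g h q d A v s p.2.1
        have h3 := card_union_le (RS F g h q d A v s p.1) (RS F g h q d A v s p.2.1)
        omega
    _ = 2 * Fintype.card V ^ 2 * (2 * (h + h * (2 * g) * d + q * d + 1) ^ s + 1) ^ d := by
        rw [sum_const, card_univ, Fintype.card_prod, Fintype.card_prod, Fintype.card_bool,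
          smul_eq_mul]
        ring

end DCQ_

open DCQ_ in
theorem p_DCQ (h_RSC : T_RSC) (h_IND : T_IND) : T_DCQ := by
  intro V _ F g h q d s A v
  have hex : ∀ K ∈ univ.filter (fun K : SimpleGraph V =>
      (∀ x y, x ≠ v → y ≠ v → (K.Adj x y ↔ F.Adj x y)) ∧ Cd K g h q d s A v),
      ∃ c : (_ : V × V × Bool) × Finset V, c ∈ codes F g h q d s A v ∧ c.1.2.1 ≠ v ∧
        ∀ z, z ≠ v → (K.Adj z v ↔ if z = c.1.2.1 then c.1.2.2 = true
          else if z ∈ c.2 then ¬ K.Adj z c.1.2.1 else K.Adj z c.1.2.1) := by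
    intro K hK
    obtain ⟨-, hoff, hv, w, u, b, Z, hw, hu, hd, hZ, hC⟩ := mem_filter.1 hK
    refine ⟨⟨(w, u, b), Z⟩, ?_, hu, hC⟩
    rw [h_IND V F K g h q d A v hv hoff s w hw, h_IND V F K g h q d A v hv hoff s u hu] at hZ
    unfold codes
    rw [mem_sigma]
    exact ⟨mem_univ _, mem_filter.2 ⟨mem_powerset.2 hZ, hd⟩⟩
  haveI : Nonempty ((_ : V × V × Bool) × Finset V) := ⟨⟨(v, v, true), ∅⟩⟩
  choose! f hf using hex
  refine le_trans (card_le_card_of_injOn f (fun K hK => (hf K hK).1) ?_)
    (card_codes h_RSC F g h q d s A v)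
  intro K hK L hL he
  have hK' := mem_filter.1 (mem_coe.1 hK)
  have hL' := mem_filter.1 (mem_coe.1 hL)
  obtain ⟨-, huK, cK⟩ := hf K hK
  obtain ⟨-, huL, cL⟩ := hf L hL
  rw [← he] at cL
  exact inj hK'.2.1 hL'.2.1 huK cK cL

end Pool.Agent.NRQ
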