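import Pool.Agent.NRQ.TargetsC
import Pool.Agent.NRC.P_EQV

/-!
# NRQ, EQ1: invariance of the codes `Gd1` under isomorphisms
-/

set_option autoImplicit false

open Finset Classical

namespace Pool.Agent.NRQ

open Pool.Agent Pool.Agent.Lib.Recon Pool.Agent.RNB Pool.Agent.NRC Pool.Agent.NRP

open Pool.Agent.NRC.EQV_ in
theorem p_EQ1 : T_EQ1 := by
  intro V _ H K σ g M A v h hG
  obtain ⟨hv, W, S, u, b, hu, hM, hS, hW, hC⟩ := hG
  refine ⟨fun hh => hv ((mem_im σ A v).1 hh), W.image σ, S.image σ, σ u, b,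
    σ.injective.ne hu, ?_, Finset.image_subset_image hS, ?_, ?_⟩
  · rw [Finset.card_image_of_injective _ σ.injective]
    exact hM
  · rcases hW with rfl | ⟨w, hw, rfl⟩
    · exact Or.inl (Finset.image_empty _)
    · exact Or.inr ⟨σ w, σ.injective.ne hw, (BR_im h g A v w).symm⟩
  · intro z hz
    obtain ⟨z, rfl⟩ := σ.surjective z
    have hz' : z ≠ v := fun e => hz (by rw [e])
    have h1 := hC z hz'
    rw [← h z v, h1]
    simp only [mem_im, ← h, card_sd h, σ.injective.eq_iff]

end Pool.Agent.NRQ
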