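import Pool.Agent.NRQ.TargetsC

/-!
# EQQ: invariance of the codes with hints
-/

set_option autoImplicit false

open Finset Classical

namespace Pool.Agent.NRQ

open Pool.Agent Pool.Agent.Lib.Recon Pool.Agent.RNB Pool.Agent.NRC

namespace EQQ_

variable {V : Type} [Fintype V]

omit [Fintype V] in
theorem mem_im (σ : V ≃ V) (A : Finset V) (x : V) : σ x ∈ A.image σ ↔ x ∈ A := by
  rw [Finset.mem_image]
  constructor
  · rintro ⟨y, hy, h⟩
    rwa [σ.injective h] at hy
  · exact fun h => ⟨x, h, rfl⟩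

omit [Fintype V] in
theorem ex_im (σ : V ≃ V) (P : V → Prop) : (∃ x, P x) ↔ ∃ x, P (σ x) := by
  constructor
  · rintro ⟨x, hx⟩
    exact ⟨σ.symm x, by rwa [σ.apply_symm_apply]⟩
  · rintro ⟨x, hx⟩
    exact ⟨σ x, hx⟩

omit [Fintype V] in
theorem ne_im (σ : V ≃ V) (x y : V) : σ x ≠ σ y ↔ x ≠ y := σ.injective.ne_iff

theorem cl_im {H K : SimpleGraph V} {σ : V ≃ V} (h : ∀ x y, H.Adj x y ↔ K.Adj (σ x) (σ y))
    (A : Finset V) (y : V) : cl K (A.image σ) (σ y) = (cl H A y).image σ := by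
  ext x
  obtain ⟨x, rfl⟩ := σ.surjective x
  rw [mem_im]
  simp only [cl, Finset.mem_filter, Finset.mem_univ, true_and, mem_im]
  refine and_congr Iff.rfl ?_
  constructor
  · intro h1 b hb
    have := h1 (σ b) (Finset.mem_image_of_mem σ hb)
    rw [← h, ← h] at this
    exact this
  · intro h1 b hb
    obtain ⟨b', hb', rfl⟩ := Finset.mem_image.1 hb
    rw [← h, ← h]
    exact h1 b' hb'

theorem sd_im {H K : SimpleGraph V} {σ : V ≃ V} (h : ∀ x y, H.Adj x y ↔ K.Adj (σ x) (σ y))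
    (A : Finset V) (v z y : V) :
    sd K (A.image σ) (σ v) (σ z) (σ y) = (sd H A v z y).image σ := by
  unfold sd
  rw [← Finset.image_insert, cl_im h, Finset.image_erase σ.injective]

theorem card_im (σ : V ≃ V) (S : Finset V) : (S.image σ).card = S.card :=
  Finset.card_image_of_injective _ σ.injective

theorem inv_im {H K : SimpleGraph V} {σ : V ≃ V} (h : ∀ x y, H.Adj x y ↔ K.Adj (σ x) (σ y))
    (k : ℕ) (A : Finset V) (v y : V) :
    inv K k (A.image σ) (σ v) (σ y) = (inv H k A v y).image σ := by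
  ext x
  obtain ⟨x, rfl⟩ := σ.surjective x
  rw [mem_im]
  simp only [inv, Finset.mem_filter, Finset.mem_univ, true_and, mem_im, ne_im, sd_im h, card_im]

theorem EEv_im {H K : SimpleGraph V} {σ : V ≃ V} (h : ∀ x y, H.Adj x y ↔ K.Adj (σ x) (σ y))
    (g : ℕ) (A : Finset V) (v : V) :
    EEv K g (A.image σ) (σ v) = (EEv H g A v).image σ := by
  ext x
  obtain ⟨x, rfl⟩ := σ.surjective x
  rw [mem_im]
  simp only [EEv, Finset.mem_filter, Finset.mem_univ, true_and, mem_im, ne_im]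
  refine and_congr Iff.rfl (and_congr Iff.rfl ?_)
  rw [ex_im σ]
  refine exists_congr fun y => ?_
  rw [ex_im σ]
  refine exists_congr fun y' => ?_
  simp only [mem_im, ne_im, cl_im h, sd_im h, card_im, ← h]

theorem rcv_im {H K : SimpleGraph V} {σ : V ≃ V} (h : ∀ x y, H.Adj x y ↔ K.Adj (σ x) (σ y))
    (g : ℕ) (A : Finset V) (v y : V) :
    rcv K g (A.image σ) (σ v) (σ y) = (rcv H g A v y).image σ := by
  unfold rcv
  rw [EEv_im h, ← Finset.image_union, cl_im h, Finset.image_erase σ.injective]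

theorem dset_im {H K : SimpleGraph V} {σ : V ≃ V} (h : ∀ x y, H.Adj x y ↔ K.Adj (σ x) (σ y))
    (u v : V) : dset K (σ u) (σ v) = (dset H u v).image σ := by
  ext x
  obtain ⟨x, rfl⟩ := σ.surjective x
  rw [mem_im]
  simp only [dset, Finset.mem_filter, Finset.mem_univ, true_and, ne_im, ← h]

theorem dcard {H K : SimpleGraph V} {σ : V ≃ V} (h : ∀ x y, H.Adj x y ↔ K.Adj (σ x) (σ y))
    (u v w : V) : ((dset K (σ u) (σ v)).erase (σ w)).card = ((dset H u v).erase w).card := by
  rw [dset_im h, ← Finset.image_erase σ.injective, card_im]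

theorem Hn_im {H K : SimpleGraph V} {σ : V ≃ V} (h : ∀ x y, H.Adj x y ↔ K.Adj (σ x) (σ y))
    (g hh q d : ℕ) (A : Finset V) (v a b : V) :
    Hn K g hh q d (A.image σ) (σ v) (σ a) (σ b) ↔ Hn H g hh q d A v a b := by
  unfold Hn
  have e1 : (∃ t ∈ inv K (2 * g - 1) (A.image σ) (σ v) (σ a),
      ∃ a' ∈ sd K (A.image σ) (σ v) t (σ a),
        ((dset K (σ a) a').erase (σ v)).card ≤ d ∧ σ b ∈ dset K (σ a) a') ↔
      (∃ t ∈ inv H (2 * g - 1) A v a, ∃ a' ∈ sd H A v t a,
        ((dset H a a').erase v).card ≤ d ∧ b ∈ dset H a a') := by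
    rw [ex_im σ]
    refine exists_congr fun t => ?_
    rw [inv_im h, mem_im]
    refine and_congr Iff.rfl ?_
    rw [ex_im σ]
    refine exists_congr fun a' => ?_
    rw [sd_im h, mem_im, dcard h, dset_im h, mem_im]
  have e2 : (∃ a' ∈ rcv K g (A.image σ) (σ v) (σ a),
        ((dset K (σ a) a').erase (σ v)).card ≤ d ∧ σ b ∈ dset K (σ a) a') ↔
      (∃ a' ∈ rcv H g A v a,
        ((dset H a a').erase v).card ≤ d ∧ b ∈ dset H a a') := by
    rw [ex_im σ]
    refine exists_congr fun a' => ?_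
    rw [rcv_im h, mem_im, dcard h, dset_im h, mem_im]
  rw [e1, e2, ne_im, inv_im h, card_im, mem_im, rcv_im h, card_im]

theorem RS_im {H K : SimpleGraph V} {σ : V ≃ V} (h : ∀ x y, H.Adj x y ↔ K.Adj (σ x) (σ y))
    (g hh q d : ℕ) (A : Finset V) (v : V) (s : ℕ) (a : V) :
    RS K g hh q d (A.image σ) (σ v) s (σ a) = (RS H g hh q d A v s a).image σ := by
  induction s with
  | zero => simp [RS]
  | succ s ih =>
    rw [RS, RS, ih, Finset.image_union]
    congr 1
    ext x
    obtain ⟨x, rfl⟩ := σ.surjective x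
    rw [mem_im]
    simp only [Finset.mem_filter, Finset.mem_univ, true_and]
    rw [ex_im σ]
    refine exists_congr fun c => ?_
    rw [mem_im, Hn_im h]

end EQQ_

open EQQ_ in
theorem p_EQQ : T_EQQ := by
  intro V _ H K σ g hh q d s A v h hG
  obtain ⟨hv, w, u, b, Z, hw, hu, hd, hZ, hC⟩ := hG
  refine ⟨fun hv' => hv ((mem_im σ A v).1 hv'), σ w, σ u, b, Z.image σ, σ.injective.ne hw,
    σ.injective.ne hu, ?_, ?_, ?_⟩
  · rw [card_im]
    exact hd
  · rw [RS_im h, RS_im h, ← Finset.image_union]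
    exact Finset.image_subset_image hZ
  · intro z hz
    obtain ⟨z, rfl⟩ := σ.surjective z
    have hz' : z ≠ v := fun e => hz (by rw [e])
    have h1 := hC z hz'
    rw [← h z v, h1]
    simp only [mem_im, ← h, σ.injective.eq_iff]

end Pool.Agent.NRQ
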