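import Pool.Agent.NRQ.TargetsC

/-!
# NRQ, target EVS: the sets `EEv` and `EE`
-/

set_option autoImplicit false

open Finset Classical

namespace Pool.Agent.NRQ

open Pool.Agent Pool.Agent.Lib.Recon Pool.Agent.RNB Pool.Agent.NRC Pool.Agent.NRP

namespace EVS_

variable {V : Type} [Fintype V]

theorem mem_cl {G : SimpleGraph V} {B : Finset V} {v y : V} :
    y ∈ cl G B v ↔ y ∉ B ∧ ∀ b ∈ B, (G.Adj b v ↔ G.Adj b y) := by
  simp [cl]

theorem mem_side {G : SimpleGraph V} {A : Finset V} {z v y : V} :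
    y ∈ cl G (insert z A) v ↔ y ∉ A ∧ y ≠ z ∧ (G.Adj z v ↔ G.Adj z y) ∧
      ∀ b ∈ A, (G.Adj b v ↔ G.Adj b y) := by
  rw [mem_cl]
  constructor
  · rintro ⟨h1, h2⟩
    refine ⟨fun h => h1 (mem_insert_of_mem h), fun h => h1 (h ▸ mem_insert_self _ _),
      h2 z (mem_insert_self _ _), fun b hb => h2 b (mem_insert_of_mem hb)⟩
  · rintro ⟨h1, h2, h3, h4⟩
    refine ⟨fun h => ?_, fun b hb => ?_⟩
    · rcases mem_insert.1 h with h | h
      · exact h2 h
      · exact h1 h
    · rcases mem_insert.1 hb with rfl | hb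
      · exact h3
      · exact h4 b hb

/-- members of a class have the same class -/
theorem cl_eq {G : SimpleGraph V} {B : Finset V} {v y : V} (h : ∀ b ∈ B, (G.Adj b v ↔ G.Adj b y)) :
    cl G B y = cl G B v := by
  ext x
  rw [mem_cl, mem_cl]
  exact and_congr_right fun _ => forall₂_congr fun b hb => by rw [h b hb]

theorem side_eq {G : SimpleGraph V} {A : Finset V} {z v y : V} (h : (G.Adj z v ↔ G.Adj z y))
    (h' : ∀ b ∈ A, (G.Adj b v ↔ G.Adj b y)) :
    cl G (insert z A) y = cl G (insert z A) v := by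
  refine cl_eq fun b hb => ?_
  rcases mem_insert.1 hb with rfl | hb
  · exact h
  · exact h' b hb

/-- the main step -/
theorem key {G : SimpleGraph V} {g : ℕ} {A : Finset V} {v z y y' : V} (hzA : z ∉ A)
    (hcl : ∀ b ∈ A, (G.Adj b y ↔ G.Adj b y'))
    (hne : ¬ (G.Adj z y ↔ G.Adj z y')) (h1 : g < (cl G (insert z A) y).card)
    (h2 : g < (cl G (insert z A) y').card) (h3 : (sd G A v z y).card ≤ g) :
    z ∈ ZZ G A v := by
  have hv : v ∈ cl G (insert z A) y := by
    by_contra h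
    rw [sd, erase_eq_of_notMem h] at h3
    omega
  have hc : (cl G (insert z A) y).card ≤ g + 1 := by
    have := card_erase_of_mem hv
    rw [sd] at h3
    omega
  obtain ⟨hvA, hvz, h4, h5⟩ := mem_side.1 hv
  have h6 : cl G (insert z A) v = cl G (insert z A) y := side_eq h4 h5
  have h7 : cl G A v = cl G A y := cl_eq h5
  have hdis : Disjoint (cl G (insert z A) y) (cl G (insert z A) y') := by
    rw [Finset.disjoint_left]
    intro x hx hx'
    have h8 := (mem_side.1 hx).2.2.1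
    have h9 := (mem_side.1 hx').2.2.1
    exact hne (h8.trans h9.symm)
  have hsub : cl G (insert z A) y ∪ cl G (insert z A) y' ⊆ cl G A y := by
    intro x hx
    rw [mem_cl]
    rcases mem_union.1 hx with h | h
    · have h8 := mem_side.1 h
      exact ⟨h8.1, h8.2.2.2⟩
    · have h8 := mem_side.1 h
      exact ⟨h8.1, fun b hb => (hcl b hb).trans (h8.2.2.2 b hb)⟩
  have hcard := card_le_card hsub
  rw [card_union_of_disjoint hdis] at hcard
  rw [ZZ, mem_filter]
  refine ⟨mem_univ _, hzA, ?_⟩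
  rw [SS, mem_filter]
  refine ⟨mem_univ _, hvA, hvz, ?_⟩
  rw [h6, h7]
  omega

/-- another member of the same side -/
theorem move {G : SimpleGraph V} {g : ℕ} {A : Finset V} {z y : V} (v : V) (hg : 1 ≤ g)
    (h1 : g < (cl G (insert z A) y).card) :
    ∃ x, x ≠ v ∧ x ∉ A ∧ x ≠ z ∧ (G.Adj z y ↔ G.Adj z x) ∧ (∀ b ∈ A, (G.Adj b y ↔ G.Adj b x)) ∧
      cl G (insert z A) x = cl G (insert z A) y := by
  obtain ⟨x, hx, hxv⟩ := exists_mem_ne (by omega : 1 < (cl G (insert z A) y).card) v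
  obtain ⟨h2, h3, h4, h5⟩ := mem_side.1 hx
  exact ⟨x, hxv, h2, h3, h4, h5, side_eq h4 h5⟩

end EVS_

open EVS_ in
theorem p_EVS : T_EVS := by
  intro V _ G g A v hg hvA
  constructor
  · intro z hz
    rw [EEv, mem_filter] at hz
    obtain ⟨-, hzA, -, y, y', h1, h2, -, h3, -, h4, h5, h6, h7⟩ := hz
    rw [EE, mem_filter]
    exact ⟨mem_univ _, hzA, y, y', h1, h2, h3, h4, h5, h6.trans_le (card_erase_le),
      h7.trans_le (card_erase_le)⟩
  · intro z hz hzv hne
    rw [EE, mem_filter] at hz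
    obtain ⟨-, hzA, y, y', -, -, -, h4, h5, h6, h7⟩ := hz
    obtain ⟨x, a1, a2, a3, a4, a5, a6⟩ := move v hg h6
    obtain ⟨x', b1, b2, b3, b4, b5, b6⟩ := move v hg h7
    rw [← a6] at h6
    rw [← b6] at h7
    have hcl := (mem_cl.1 h4).2
    have hcl' : ∀ b ∈ A, (G.Adj b x ↔ G.Adj b x') := fun b hb =>
      ((a5 b hb).symm.trans (hcl b hb)).trans (b5 b hb)
    have hne' : ¬ (G.Adj z x ↔ G.Adj z x') := fun h => h5 ((a4.trans h).trans b4.symm)
    by_cases c1 : (sd G A v z x).card ≤ g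
    · exact key hzA hcl' hne' h6 h7 c1
    · by_cases c2 : (sd G A v z x').card ≤ g
      · exact key hzA (fun b hb => (hcl' b hb).symm) (fun h => hne' h.symm) h7 h6 c2
      · exfalso
        refine hzv ?_
        rw [EEv, mem_filter]
        exact ⟨mem_univ _, hzA, hne, x, x', a2, a3, a1, b3, b1, mem_cl.2 ⟨b2, hcl'⟩, hne',
          not_le.1 c1, not_le.1 c2⟩

end Pool.Agent.NRQ
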