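import Pool.Agent.NRQ.TargetsC
import Pool.Agent.NRC.P_DCB

/-!
# NRQ, IND: everything is computed without the vertex `v`
-/

set_option autoImplicit false

open Finset Classical

namespace Pool.Agent.NRQ

open Pool.Agent Pool.Agent.Lib.Recon Pool.Agent.RNB Pool.Agent.NRC Pool.Agent.NRP

namespace IND_

variable {V : Type} [Fintype V]

open Pool.Agent.NRC.DCB_ (Off sd_eq)

omit [Fintype V] in
theorem Off_symm {F K : SimpleGraph V} {v : V} (h : Off F K v) : Off K F v :=
  fun x y hx hy => (h x y hx hy).symm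

theorem cl_iff {F K : SimpleGraph V} {v : V} (h : Off F K v) {B : Finset V} (hv : v ∉ B)
    {y x : V} (hy : y ≠ v) (hx : x ≠ v) : x ∈ cl K B y ↔ x ∈ cl F B y := by
  simp only [cl, mem_filter, mem_univ, true_and]
  refine and_congr_right fun _ => forall₂_congr fun b hb => ?_
  have hbv : b ≠ v := by
    rintro rfl
    exact hv hb
  rw [h b y hbv hy, h b x hbv hx]

theorem cl_erase {F K : SimpleGraph V} {v : V} (h : Off F K v) {B : Finset V} (hv : v ∉ B)
    {y : V} (hy : y ≠ v) : (cl K B y).erase v = (cl F B y).erase v := by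
  ext x
  simp only [mem_erase]
  exact and_congr_right fun hx => cl_iff h hv hy hx

theorem inv_eq {F K : SimpleGraph V} {v : V} (h : Off F K v) {A : Finset V} (hv : v ∉ A)
    (k : ℕ) {a : V} (ha : a ≠ v) : inv K k A v a = inv F k A v a := by
  ext z
  simp only [inv, mem_filter, mem_univ, true_and]
  refine and_congr_right fun _ => and_congr_right fun hz => and_congr_right fun _ => ?_
  rw [sd_eq h hv hz ha]

theorem EEv_sub {F K : SimpleGraph V} {v : V} (h : Off F K v) {A : Finset V} (hv : v ∉ A)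
    (g : ℕ) : EEv K g A v ⊆ EEv F g A v := by
  intro z
  simp only [EEv, mem_filter, mem_univ, true_and]
  rintro ⟨z1, z2, y, y', a1, a2, a3, a4, a5, a6, a7, a8, a9⟩
  refine ⟨z1, z2, y, y', a1, a2, a3, a4, a5, (cl_iff h hv a3 a5).1 a6, ?_, ?_, ?_⟩
  · rw [← h z y z2 a3, ← h z y' z2 a5]
    exact a7
  · rw [← sd_eq h hv z2 a3]
    exact a8
  · rw [← sd_eq h hv z2 a5]
    exact a9

theorem EEv_eq {F K : SimpleGraph V} {v : V} (h : Off F K v) {A : Finset V} (hv : v ∉ A)
    (g : ℕ) : EEv K g A v = EEv F g A v :=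
  Subset.antisymm (EEv_sub h hv g) (EEv_sub (Off_symm h) hv g)

theorem v_nmem_EEv (F : SimpleGraph V) (g : ℕ) (A : Finset V) (v : V) : v ∉ EEv F g A v := by
  intro h
  simp only [EEv, mem_filter, mem_univ, true_and] at h
  exact h.2.1 rfl

theorem rcv_eq {F K : SimpleGraph V} {v : V} (h : Off F K v) {A : Finset V} (hv : v ∉ A)
    (g : ℕ) {a : V} (ha : a ≠ v) : rcv K g A v a = rcv F g A v a := by
  unfold rcv
  rw [EEv_eq h hv g]
  refine cl_erase h ?_ ha
  rw [mem_union, not_or]
  exact ⟨hv, v_nmem_EEv F g A v⟩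

theorem dset_iff {F K : SimpleGraph V} {v : V} (h : Off F K v) {a a' b : V} (ha : a ≠ v)
    (ha' : a' ≠ v) (hb : b ≠ v) : b ∈ dset K a a' ↔ b ∈ dset F a a' := by
  simp only [dset, mem_filter, mem_univ, true_and]
  rw [h b a hb ha, h b a' hb ha']

theorem dset_erase {F K : SimpleGraph V} {v : V} (h : Off F K v) {a a' : V} (ha : a ≠ v)
    (ha' : a' ≠ v) : (dset K a a').erase v = (dset F a a').erase v := by
  ext x
  simp only [mem_erase]
  exact and_congr_right fun hx => dset_iff h ha ha' hx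

theorem Hn_imp {F K : SimpleGraph V} {v : V} (h : Off F K v) {A : Finset V} (hv : v ∉ A)
    {g k q d : ℕ} {a b : V} (ha : a ≠ v) (H : Hn K g k q d A v a b) :
    Hn F g k q d A v a b := by
  obtain ⟨hb, H⟩ := H
  refine ⟨hb, ?_⟩
  rcases H with ⟨h1, h2⟩ | ⟨h1, a', h2, h3, h4⟩
  · rw [inv_eq h hv _ ha] at h1 h2
    refine Or.inl ⟨h1, ?_⟩
    rcases h2 with h2 | ⟨t, ht, a', ha', h3, h4⟩
    · exact Or.inl h2
    · have htv : t ≠ v := by
        simp only [inv, mem_filter, mem_univ, true_and] at ht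
        exact ht.2.1
      have hav : a' ≠ v := (mem_erase.1 ha').1
      rw [sd_eq h hv htv ha] at ha'
      rw [dset_erase h ha hav] at h3
      exact Or.inr ⟨t, ht, a', ha', h3, (dset_iff h ha hav hb).1 h4⟩
  · have hav : a' ≠ v := (mem_erase.1 h2).1
    rw [rcv_eq h hv g ha] at h1 h2
    rw [dset_erase h ha hav] at h3
    exact Or.inr ⟨h1, a', h2, h3, (dset_iff h ha hav hb).1 h4⟩

theorem Hn_iff {F K : SimpleGraph V} {v : V} (h : Off F K v) {A : Finset V} (hv : v ∉ A)
    {g k q d : ℕ} {a b : V} (ha : a ≠ v) :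
    Hn K g k q d A v a b ↔ Hn F g k q d A v a b :=
  ⟨Hn_imp h hv ha, Hn_imp (Off_symm h) hv ha⟩

theorem RS_ne {F : SimpleGraph V} {A : Finset V} {g k q d : ℕ} {v a : V} (ha : a ≠ v) :
    ∀ (s : ℕ), ∀ c ∈ RS F g k q d A v s a, c ≠ v := by
  intro s
  induction s with
  | zero =>
    intro c hc
    rw [RS, mem_singleton] at hc
    rw [hc]
    exact ha
  | succ s ih =>
    intro c hc
    rw [RS, mem_union] at hc
    rcases hc with hc | hc
    · exact ih c hc
    · simp only [mem_filter, mem_univ, true_and] at hc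
      obtain ⟨c', -, hc'⟩ := hc
      exact hc'.1

end IND_

open IND_ in
theorem p_IND : T_IND := by
  intro V _ F K g k q d A v hv h s a ha
  induction s with
  | zero => rfl
  | succ s ih =>
    rw [RS, RS, ih]
    congr 1
    ext b
    simp only [mem_filter, mem_univ, true_and]
    refine exists_congr fun c => and_congr_right fun hc => ?_
    exact Hn_iff h hv (RS_ne ha s c hc)

end Pool.Agent.NRQ
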