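import Pool.Agent.NRQ.TargetsC

/-!
# NRQ, target NAM (helper64): arrows with respect to `T` are hinted
-/

set_option autoImplicit false

open Finset Classical

namespace Pool.Agent.NRQ

open Pool.Agent Pool.Agent.Lib.Recon Pool.Agent.RNB Pool.Agent.NRC Pool.Agent.NRP

namespace NAM_

variable {V : Type} [Fintype V]

theorem mem_cl {G : SimpleGraph V} {B : Finset V} {v y : V} :
    y ∈ cl G B v ↔ y ∉ B ∧ ∀ b ∈ B, (G.Adj b v ↔ G.Adj b y) := by
  simp [cl]

theorem cl_anti {G : SimpleGraph V} {B C : Finset V} (h : B ⊆ C) (v : V) :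
    cl G C v ⊆ cl G B v := by
  intro x hx
  rw [mem_cl] at hx ⊢
  exact ⟨fun h1 => hx.1 (h h1), fun b hb => hx.2 b (h hb)⟩

theorem sd_le {G : SimpleGraph V} {A : Finset V} (v z y : V) :
    (sd G A v z y).card ≤ (cl G (insert z A) y).card :=
  card_le_card (erase_subset _ _)

theorem le_sd {G : SimpleGraph V} {A : Finset V} (v z y : V) :
    (cl G (insert z A) y).card ≤ (sd G A v z y).card + 1 := by
  unfold sd
  have := pred_card_le_card_erase (s := cl G (insert z A) y) (a := v)
  omega

/-- the partner of `a` -/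
theorem partner {G : SimpleGraph V} {e : ℕ} {T : Finset V} {a b v : V} (he : 1 ≤ e)
    (h8 : 8 * e < (cl G T a).card) (hb : (cl G (insert b T) a).card ≤ 2 * e) :
    ∃ a' ∈ cl G T a, a' ≠ v ∧ a' ≠ b ∧ ¬ (G.Adj b a ↔ G.Adj b a') := by
  by_contra hcon
  push Not at hcon
  have hsub : cl G T a ⊆ cl G (insert b T) a ∪ {b, v} := by
    intro x hx
    rw [mem_union, mem_insert, mem_singleton]
    by_cases h1 : x = b
    · exact Or.inr (Or.inl h1)
    by_cases h2 : x = v
    · exact Or.inr (Or.inr h2)
    refine Or.inl ?_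
    have h3 := hcon x hx h2 h1
    rw [mem_cl] at hx ⊢
    refine ⟨fun h => ?_, fun c hc => ?_⟩
    · rcases mem_insert.1 h with h | h
      · exact h1 h
      · exact hx.1 h
    · rcases mem_insert.1 hc with rfl | hc
      · exact h3
      · exact hx.2 c hc
  have h1 := card_le_card hsub
  have h2 := card_union_le (cl G (insert b T) a) {b, v}
  have h3 : ({b, v} : Finset V).card ≤ 2 := card_le_two
  omega

end NAM_

open NAM_ in
theorem p_NAM (h_EVS : T_EVS) (h_RCB : T_RCB) (h_SML : NRC.T_SML) : T_NAM := by
  intro V _ G g h q q2 d e A T v a b hg he heg hgq hq2 hq4 hBs hR hN hv ha hav hbv hbT h8 hb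
  rw [IN, mem_filter] at hb
  obtain ⟨-, -, hba, hbc⟩ := hb
  obtain ⟨a', ha'Q, ha'v, ha'b, hadj⟩ := partner (v := v) he h8 hbc
  obtain ⟨hAE, hZ⟩ := hBs
  have hA : A ⊆ T := (subset_union_left).trans hAE
  have hE : EE G g A ⊆ T := (subset_union_right).trans hAE
  have hvA : v ∉ A := fun hh => hv (hA hh)
  have hEv := h_EVS V G g A v hg hvA
  obtain ⟨ha'T, ha'adj⟩ := mem_cl.1 ha'Q
  have hbd : b ∈ dset G a a' := by
    rw [dset, mem_filter]
    exact ⟨mem_univ _, hba, fun hh => ha'b hh.symm, hadj⟩
  have haa' : a ≠ a' := by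
    rintro rfl
    exact hadj Iff.rfl
  have hd : ((dset G a a').erase v).card ≤ d :=
    (card_le_card (erase_subset _ _)).trans (hN a a' ha ha'T haa' ha'adj).le
  have hrcv : a' ∈ rcv G g A v a := by
    rw [rcv, mem_erase]
    refine ⟨ha'v, cl_anti ?_ a ha'Q⟩
    exact union_subset hA (hEv.1.trans hE)
  refine ⟨hbv, ?_⟩
  by_cases h4 : (cl G A a).card ≤ 4 * g
  · right
    refine ⟨?_, a', hrcv, hd, hbd⟩
    refine (card_le_card ?_).trans (h4.trans hq4)
    exact (erase_subset _ _).trans (cl_anti subset_union_left a)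
  rw [not_le] at h4
  have hinv : (inv G (2 * g - 1) A v a).card ≤ h := by
    have h1 : inv G (2 * g - 1) A v a ⊆ ZZ G A a := by
      intro z hz
      rw [inv, mem_filter] at hz
      obtain ⟨-, hzA, hzv, hza, hzc⟩ := hz
      rw [ZZ, mem_filter, SS, mem_filter]
      have h2 := le_sd (G := G) (A := A) v z a
      exact ⟨mem_univ _, hzA, mem_univ _, fun hh => ha (hA hh), fun hh => hza hh.symm, by omega⟩
    refine (card_le_card h1).trans ?_
    by_contra hh
    exact ha (hZ a (not_le.1 hh))
  by_cases h2 : ∃ t ∈ T, t ∉ A ∧ (sd G A v t a).card ≤ 2 * g - 1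
  · obtain ⟨t, htT, htA, htc⟩ := h2
    left
    refine ⟨hinv, Or.inr ⟨t, ?_, a', ?_, hd, hbd⟩⟩
    · rw [inv, mem_filter]
      exact ⟨mem_univ _, htA, fun hh => hv (hh ▸ htT), fun hh => ha (hh ▸ htT), htc⟩
    · rw [sd, mem_erase]
      exact ⟨ha'v, cl_anti (insert_subset htT hA) a ha'Q⟩
  push Not at h2
  by_cases h3 : a ∈ LA G g q A
  · -- the class of `a` is rich
    have h3' := h3
    rw [LA, mem_filter] at h3'
    obtain ⟨-, haE, hbig⟩ := h3'
    have hno : ∀ t ∈ T, t ∉ IN G (2 * g) A a := by
      intro t ht hin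
      have hin' := hin
      rw [IN, mem_filter] at hin'
      obtain ⟨-, htA, hta, htc⟩ := hin'
      by_cases htE : t ∈ EE G g A
      · have h5 : cl G (A ∪ EE G g A) a ⊆ cl G (insert t A) a :=
          cl_anti (insert_subset (mem_union_right _ htE) subset_union_left) a
        have h6 := card_le_card h5
        omega
      · have h5 := h_SML V G g q A hgq a h3 t hin htE
        have h6 := sd_le (G := G) (A := A) v t a
        have h7 := h2 t ht htA
        omega
    have hrich := hR a ha h3 hno
    by_cases hbin : b ∈ IN G (2 * g) A a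
    · left
      refine ⟨hinv, Or.inl ?_⟩
      have h5 := h_SML V G g q A hgq a h3 b hbin fun hh => hbT (hE hh)
      have h6 := sd_le (G := G) (A := A) v b a
      rw [inv, mem_filter]
      exact ⟨mem_univ _, fun hh => hbT (hA hh), hbv, hba, by omega⟩
    · exfalso
      have hbA : b ∉ A := fun hh => hbT (hA hh)
      have hbig2 : 2 * g < (cl G (insert b A) a).card := by
        by_contra hh
        refine hbin ?_
        rw [IN, mem_filter]
        exact ⟨mem_univ _, hbA, hba, not_lt.1 hh⟩
      have haA : a ∉ A := fun hh => ha (hA hh)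
      obtain ⟨O, hO⟩ : ∃ O : Finset V, O = (cl G A a).filter
        (fun x => x ≠ b ∧ ¬ (G.Adj b a ↔ G.Adj b x)) := ⟨_, rfl⟩
      have hOg : O.card ≤ g := by
        by_contra hO1
        rw [not_le] at hO1
        obtain ⟨x0, hx0⟩ : O.Nonempty := Finset.card_pos.1 (by omega)
        rw [hO, mem_filter] at hx0
        have hsub : O ⊆ cl G (insert b A) x0 := by
          intro w hw
          rw [hO, mem_filter] at hw
          have h5 := mem_cl.1 hx0.1
          have h6 := mem_cl.1 hw.1
          rw [mem_cl]
          refine ⟨fun hh => ?_, fun c hc => ?_⟩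
          · rcases mem_insert.1 hh with hh | hh
            · exact hw.2.1 hh
            · exact h6.1 hh
          · rcases mem_insert.1 hc with rfl | hc
            · have h7 := hx0.2.2
              have h8 := hw.2.2
              tauto
            · exact (h5.2 c hc).symm.trans (h6.2 c hc)
        have hc := Finset.card_le_card hsub
        refine hbT (hE ?_)
        rw [EE, mem_filter]
        exact ⟨mem_univ _, hbA, a, x0, haA, fun hh => hba hh.symm, hx0.2.1, hx0.1, hx0.2.2,
          by omega, lt_of_lt_of_le hO1 hc⟩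
      have hcov : cl G T a ⊆ (cl G (insert b T) a ∪ {b}) ∪ O := by
        intro w hw
        rw [mem_union, mem_union, mem_singleton]
        by_cases h5 : w = b
        · exact Or.inl (Or.inr h5)
        by_cases h6 : (G.Adj b a ↔ G.Adj b w)
        · refine Or.inl (Or.inl ?_)
          rw [mem_cl] at hw ⊢
          refine ⟨fun hh => ?_, fun c hc => ?_⟩
          · rcases mem_insert.1 hh with hh | hh
            · exact h5 hh
            · exact hw.1 hh
          · rcases mem_insert.1 hc with rfl | hc
            · exact h6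
            · exact hw.2 c hc
        · refine Or.inr ?_
          rw [hO, mem_filter]
          exact ⟨cl_anti hA a hw, h5, h6⟩
      have h5 := card_le_card hcov
      have h6 := card_union_le (cl G (insert b T) a ∪ {b}) O
      have h7 := card_union_le (cl G (insert b T) a) {b}
      rw [card_singleton] at h7
      omega
  · right
    have haE : a ∉ A ∪ EE G g A := fun hh => ha (hAE hh)
    have hsm : (cl G (A ∪ EE G g A) a).card ≤ q := by
      by_contra hh
      refine h3 ?_
      rw [LA, mem_filter]
      exact ⟨mem_univ _, haE, not_le.1 hh⟩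
    have hZv : (ZZ G A v).card ≤ h := by
      by_contra hh
      exact hv (hZ v (not_le.1 hh))
    have h5 := h_RCB V G g h q A v a hg (fun hh => hv (hAE hh)) haE hav hZv hsm (by
      intro t ht
      have htA : t ∉ A := by
        rw [EE, mem_filter] at ht
        exact ht.2.1
      have h6 := h2 t (hE ht) htA
      omega)
    exact ⟨h5.trans hq2, a', hrcv, hd, hbd⟩

end Pool.Agent.NRQ
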