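import Pool.Agent.NRQ.TargetsC

/-!
# NRQ, target RCB: the refined class without `v` is small
-/

set_option autoImplicit false

open Finset Classical

namespace Pool.Agent.NRQ

open Pool.Agent Pool.Agent.Lib.Recon Pool.Agent.RNB Pool.Agent.NRC Pool.Agent.NRP

namespace RCB_

variable {V : Type} [Fintype V]

theorem mem_cl {G : SimpleGraph V} {B : Finset V} {v y : V} :
    y ∈ cl G B v ↔ y ∉ B ∧ ∀ b ∈ B, (G.Adj b v ↔ G.Adj b y) := by
  simp [cl]

/-- the exceptional vertices for one cutting vertex `e` -/
noncomputable def X (G : SimpleGraph V) (g : ℕ) (A : Finset V) (v a e : V) : Finset V :=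
  univ.filter (fun x => x ≠ v ∧ x ≠ e ∧ x ∈ cl G A a ∧ ¬ (G.Adj e a ↔ G.Adj e x) ∧
    (sd G A v e x).card ≤ g)

theorem card_X (G : SimpleGraph V) (g : ℕ) (A : Finset V) (v a e : V) :
    (X G g A v a e).card ≤ g := by
  rcases (X G g A v a e).eq_empty_or_nonempty with h0 | ⟨x0, h0⟩
  · rw [h0]
    simp
  · have h0' := h0
    simp only [X, mem_filter, mem_univ, true_and] at h0'
    obtain ⟨_, _, hc0, ha0, hg⟩ := h0'
    refine le_trans (card_le_card ?_) hg
    intro x hx
    simp only [X, mem_filter, mem_univ, true_and] at hx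
    obtain ⟨h1, h2, h3, h4, _⟩ := hx
    rw [sd, mem_erase, mem_cl]
    refine ⟨h1, ?_, ?_⟩
    · rw [mem_insert]
      rintro (h | h)
      · exact h2 h
      · exact (mem_cl.1 h3).1 h
    · intro b hb
      rcases mem_insert.1 hb with rfl | hb
      · tauto
      · exact ((mem_cl.1 hc0).2 b hb).symm.trans ((mem_cl.1 h3).2 b hb)

end RCB_

open RCB_ in
theorem p_RCB (h_EVS : T_EVS) : T_RCB := by
  intro V _ G g h q A v a hg hv ha hav hZ hq hE
  obtain ⟨hsub, hEZ⟩ := h_EVS V G g A v hg (fun h => hv (mem_union_left _ h))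
  set D : Finset V := (EE G g A).filter (fun z => z ∉ EEv G g A v ∧ z ≠ v) with hD
  have hDZ : D.card ≤ h := by
    refine le_trans (card_le_card ?_) hZ
    intro z hz
    rw [hD, mem_filter] at hz
    exact hEZ z hz.1 hz.2.1 hz.2.2
  have hcov : rcv G g A v a ⊆ cl G (A ∪ EE G g A) a ∪ (D ∪ D.biUnion (X G g A v a)) := by
    intro x hx
    rw [rcv, mem_erase, mem_cl] at hx
    obtain ⟨hxv, hx1, hx2⟩ := hx
    by_cases hxD : x ∈ D
    · exact mem_union_right _ (mem_union_left _ hxD)
    by_cases hxr : x ∈ cl G (A ∪ EE G g A) a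
    · exact mem_union_left _ hxr
    refine mem_union_right _ (mem_union_right _ ?_)
    have hxA : x ∉ A := fun h => hx1 (mem_union_left _ h)
    have hxEv : x ∉ EEv G g A v := fun h => hx1 (mem_union_right _ h)
    have hxE : x ∉ EE G g A := fun h => hxD (by rw [hD, mem_filter]; exact ⟨h, hxEv, hxv⟩)
    have hex : ∃ e ∈ A ∪ EE G g A, ¬ (G.Adj e a ↔ G.Adj e x) := by
      by_contra hcon
      push Not at hcon
      refine hxr (mem_cl.2 ⟨fun h => ?_, fun b hb => ?_⟩)
      · rcases mem_union.1 h with h | h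
        · exact hxA h
        · exact hxE h
      · by_contra hb2
        exact hb2 (hcon b hb)
    obtain ⟨e, he, hne⟩ := hex
    have heA : e ∉ A := fun h => hne (hx2 e (mem_union_left _ h))
    have heEv : e ∉ EEv G g A v := fun h => hne (hx2 e (mem_union_right _ h))
    have heE : e ∈ EE G g A := by
      rcases mem_union.1 he with h | h
      · exact absurd h heA
      · exact h
    have hev : e ≠ v := by
      rintro rfl
      exact hv (mem_union_right _ heE)
    have heD : e ∈ D := by
      rw [hD, mem_filter]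
      exact ⟨heE, heEv, hev⟩
    have hex' : x ≠ e := by
      rintro rfl
      exact hxE heE
    have hea : a ≠ e := by
      rintro rfl
      exact ha (mem_union_right _ heE)
    have hxc : x ∈ cl G A a := mem_cl.2 ⟨hxA, fun b hb => hx2 b (mem_union_left _ hb)⟩
    refine mem_biUnion.2 ⟨e, heD, ?_⟩
    simp only [X, mem_filter, mem_univ, true_and]
    refine ⟨hxv, hex', hxc, hne, ?_⟩
    by_contra hbig
    refine heEv ?_
    simp only [EEv, mem_filter, mem_univ, true_and]
    exact ⟨heA, hev, a, x, fun h => ha (mem_union_left _ h), hea, hav, hex', hxv, hxc, hne,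
      hE e heE, by omega⟩
  calc (rcv G g A v a).card ≤ (cl G (A ∪ EE G g A) a ∪ (D ∪ D.biUnion (X G g A v a))).card :=
        card_le_card hcov
    _ ≤ (cl G (A ∪ EE G g A) a).card + (D.card + (D.biUnion (X G g A v a)).card) :=
        (card_union_le _ _).trans (Nat.add_le_add_left (card_union_le _ _) _)
    _ ≤ q + (h + h * g) := by
        refine Nat.add_le_add hq (Nat.add_le_add hDZ ?_)
        refine (card_biUnion_le_card_mul _ _ g fun e _ => card_X G g A v a e).trans ?_
        exact Nat.mul_le_mul_right _ hDZ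
    _ = q + h * (g + 1) := by ring

end Pool.Agent.NRQ
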