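import Pool.Agent.NRQ.TargetsC

/-!
# NRQ-RIC: enrichment
-/

set_option autoImplicit false

open Finset Classical

namespace Pool.Agent.NRQ

open Pool.Agent Pool.Agent.Lib.Recon Pool.Agent.RNB Pool.Agent.NRC Pool.Agent.NRP

namespace RIC_

variable {V : Type} [Fintype V]

theorem mem_cl {G : SimpleGraph V} {B : Finset V} {v y : V} :
    y ∈ cl G B v ↔ y ∉ B ∧ ∀ b ∈ B, (G.Adj b v ↔ G.Adj b y) := by
  simp [cl]

theorem cl_congr {G : SimpleGraph V} {B : Finset V} {y z : V} (h : z ∈ cl G B y) :
    cl G B z = cl G B y := by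
  ext w
  rw [mem_cl, mem_cl]
  have h1 := (mem_cl.1 h).2
  constructor
  · rintro ⟨h2, h3⟩
    exact ⟨h2, fun b hb => (h1 b hb).trans (h3 b hb)⟩
  · rintro ⟨h2, h3⟩
    exact ⟨h2, fun b hb => (h1 b hb).symm.trans (h3 b hb)⟩

theorem mem_Un {G : SimpleGraph V} {g : ℕ} {A T C : Finset V} {y : V} :
    y ∈ Un G g A T C ↔ y ∈ C ∧ y ∉ T ∧ ∀ t ∈ T, t ∉ IN G (2 * g) A y := by
  simp [Un]

theorem Un_anti {G : SimpleGraph V} {g : ℕ} {A T T2 C : Finset V} (h : T ⊆ T2) :
    Un G g A T2 C ⊆ Un G g A T C := by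
  intro y hy
  rw [mem_Un] at hy ⊢
  exact ⟨hy.1, fun h' => hy.2.1 (h h'), fun t ht => hy.2.2 t (h ht)⟩

/-- the refined classes -/
noncomputable def CC (G : SimpleGraph V) (g q : ℕ) (A : Finset V) : Finset (Finset V) :=
  (LA G g q A).image (fun y => cl G (A ∪ EE G g A) y)

theorem card_CC (G : SimpleGraph V) (g q : ℕ) (A : Finset V) :
    q * (CC G g q A).card ≤ Fintype.card V := by
  have hdisj : (CC G g q A : Set (Finset V)).PairwiseDisjoint id := by
    intro C hC C' hC' hne
    rw [mem_coe, CC, mem_image] at hC hC'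
    obtain ⟨y, _, rfl⟩ := hC
    obtain ⟨y', _, rfl⟩ := hC'
    change Disjoint (cl G (A ∪ EE G g A) y) (cl G (A ∪ EE G g A) y')
    rw [Finset.disjoint_left]
    intro z hz hz'
    exact hne ((cl_congr hz).symm.trans (cl_congr hz'))
  calc q * (CC G g q A).card = ∑ C ∈ CC G g q A, q := by rw [sum_const, smul_eq_mul, mul_comm]
    _ ≤ ∑ C ∈ CC G g q A, (id C : Finset V).card := by
        refine sum_le_sum fun C hC => ?_
        rw [CC, mem_image] at hC
        obtain ⟨y, hy, rfl⟩ := hC
        rw [LA, mem_filter] at hy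
        exact hy.2.2.le
    _ = ((CC G g q A).biUnion id).card := (card_biUnion hdisj).symm
    _ ≤ Fintype.card V := card_le_univ _

/-- the number of the exhausted classes -/
noncomputable def ex (G : SimpleGraph V) (g q : ℕ) (A T : Finset V) : ℕ :=
  ((CC G g q A).filter (fun C => Un G g A T C = ∅)).card

end RIC_

open RIC_ in
theorem p_RIC (h_UNC : T_UNC) : T_RIC := by
  intro V _ G g q A T hgq hAT
  have hne : (univ.filter (fun T' : Finset V => T ⊆ T' ∧
      (T' \ T).card ≤ 4 * g * ex G g q A T')).Nonempty := by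
    refine ⟨T, ?_⟩
    rw [mem_filter]
    exact ⟨mem_univ _, Subset.refl _, by simp⟩
  obtain ⟨T', hT', hmax⟩ := exists_max_image _ (fun T' => ex G g q A T') hne
  rw [mem_filter] at hT'
  obtain ⟨_, hTT, hcard⟩ := hT'
  refine ⟨T', hTT, ?_, ?_⟩
  · intro y hy hyL hyI
    by_contra hle
    push Not at hle
    have hU := h_UNC V G g q A T' y hgq (hAT.trans hTT) hy hyL hyI
    have hyc : y ∈ cl G T' y := mem_cl.2 ⟨hy, fun _ _ => Iff.rfl⟩
    have hC : cl G (A ∪ EE G g A) y ∈ CC G g q A := mem_image.2 ⟨y, hyL, rfl⟩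
    have hsub : T' ⊆ T' ∪ cl G T' y := subset_union_left
    have hempty : Un G g A (T' ∪ cl G T' y) (cl G (A ∪ EE G g A) y) = ∅ := by
      rw [eq_empty_iff_forall_notMem]
      intro z hz
      have h1 := Un_anti hsub hz
      rw [← hU] at h1
      exact (mem_Un.1 hz).2.1 (mem_union_right _ h1)
    have hex : ex G g q A T' + 1 ≤ ex G g q A (T' ∪ cl G T' y) := by
      have h1 : cl G (A ∪ EE G g A) y ∉
          (CC G g q A).filter (fun C => Un G g A T' C = ∅) := by
        rw [mem_filter]
        rintro ⟨_, h2⟩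
        rw [← hU] at h2
        rw [h2] at hyc
        exact notMem_empty _ hyc
      unfold ex
      rw [← card_insert_of_notMem h1]
      refine card_le_card ?_
      intro C hCm
      rw [mem_insert] at hCm
      rw [mem_filter]
      rcases hCm with rfl | hCm
      · exact ⟨hC, hempty⟩
      · rw [mem_filter] at hCm
        refine ⟨hCm.1, ?_⟩
        rw [← subset_empty, ← hCm.2]
        exact Un_anti hsub
    have hc2 : ((T' ∪ cl G T' y) \ T).card ≤ 4 * g * ex G g q A (T' ∪ cl G T' y) := by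
      calc ((T' ∪ cl G T' y) \ T).card ≤ ((T' \ T) ∪ cl G T' y).card := by
            refine card_le_card fun z hz => ?_
            rw [mem_sdiff, mem_union] at hz
            rw [mem_union, mem_sdiff]
            rcases hz.1 with h | h
            · exact Or.inl ⟨h, hz.2⟩
            · exact Or.inr h
        _ ≤ (T' \ T).card + (cl G T' y).card := card_union_le _ _
        _ ≤ 4 * g * ex G g q A T' + 4 * g := add_le_add hcard hle
        _ = 4 * g * (ex G g q A T' + 1) := by ring
        _ ≤ _ := Nat.mul_le_mul_left _ hex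
    have h3 := hmax (T' ∪ cl G T' y) (by
      rw [mem_filter]
      exact ⟨mem_univ _, hTT.trans hsub, hc2⟩)
    have h4 : ex G g q A (T' ∪ cl G T' y) ≤ ex G g q A T' := h3
    omega
  · have h1 : ex G g q A T' ≤ (CC G g q A).card := card_le_card (filter_subset _ _)
    calc q * (T' \ T).card ≤ q * (4 * g * ex G g q A T') := Nat.mul_le_mul_left _ hcard
      _ ≤ q * (4 * g * (CC G g q A).card) :=
          Nat.mul_le_mul_left _ (Nat.mul_le_mul_left _ h1)
      _ = 4 * g * (q * (CC G g q A).card) := by ring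
      _ ≤ 4 * g * Fintype.card V := Nat.mul_le_mul_left _ (card_CC G g q A)

end Pool.Agent.NRQ
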