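import Pool.Agent.NRQ.TargetsC

/-!
# NRQ, block UNC: unhit vertices of one refined class form one class
-/

set_option autoImplicit false

open Finset Classical

namespace Pool.Agent.NRQ

open Pool.Agent Pool.Agent.Lib.Recon Pool.Agent.RNB Pool.Agent.NRC Pool.Agent.NRP

namespace UNC_

variable {V : Type} [Fintype V]

lemma mem_cl {G : SimpleGraph V} {B : Finset V} {v x : V} :
    x ∈ cl G B v ↔ x ∉ B ∧ ∀ b ∈ B, (G.Adj b v ↔ G.Adj b x) := by
  unfold cl
  simp only [mem_filter, mem_univ, true_and]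

lemma cl_congr {G : SimpleGraph V} {B : Finset V} {v x : V}
    (h : ∀ b ∈ B, (G.Adj b v ↔ G.Adj b x)) : cl G B x = cl G B v := by
  ext z
  rw [mem_cl, mem_cl]
  constructor
  · rintro ⟨h1, h2⟩
    exact ⟨h1, fun b hb => (h b hb).trans (h2 b hb)⟩
  · rintro ⟨h1, h2⟩
    exact ⟨h1, fun b hb => (h b hb).symm.trans (h2 b hb)⟩

lemma mem_in {G : SimpleGraph V} {k : ℕ} {A : Finset V} {y t : V} (h : t ∈ IN G k A y) :
    t ∉ A ∧ t ≠ y ∧ (cl G (insert t A) y).card ≤ k := by
  unfold IN at h
  rw [mem_filter] at h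
  exact h.2

lemma not_in {G : SimpleGraph V} {k : ℕ} {A : Finset V} {y t : V} (hA : t ∉ A) (hy : t ≠ y)
    (h : t ∉ IN G k A y) : k < (cl G (insert t A) y).card := by
  by_contra hc
  apply h
  unfold IN
  rw [mem_filter]
  exact ⟨mem_univ _, hA, hy, not_lt.mp hc⟩

end UNC_

open UNC_ in
theorem p_UNC : T_UNC := by
  intro V _ G g q A T y _ hAT hyT _ hin
  have hA : A ⊆ T := subset_union_left.trans hAT
  ext x
  rw [mem_cl]
  unfold Un
  rw [mem_filter, mem_cl]
  constructor
  · rintro ⟨hx, hadj⟩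
    refine ⟨⟨fun h => hx (hAT h), fun b hb => hadj b (hAT hb)⟩, hx, fun t ht hti => ?_⟩
    obtain ⟨htA, -, hc⟩ := mem_in hti
    have hty : t ≠ y := fun h => hyT (h ▸ ht)
    have h1 := not_in htA hty (hin t ht)
    have h2 : cl G (insert t A) x = cl G (insert t A) y := by
      apply cl_congr
      intro b hb
      rw [mem_insert] at hb
      rcases hb with rfl | hb
      · exact hadj b ht
      · exact hadj b (hA hb)
    rw [h2] at hc
    omega
  · rintro ⟨⟨-, hadj⟩, hx, hno⟩
    refine ⟨hx, fun t ht => ?_⟩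
    by_cases htE : t ∈ A ∪ EE G g A
    · exact hadj t htE
    · by_contra hne
      apply htE
      rw [mem_union]
      right
      have htA : t ∉ A := fun h => htE (mem_union_left _ h)
      have hty : t ≠ y := fun h => hyT (h ▸ ht)
      have htx : t ≠ x := fun h => hx (h ▸ ht)
      have h1 := not_in htA hty (hin t ht)
      have h2 := not_in htA htx (hno t ht)
      unfold EE
      rw [mem_filter]
      refine ⟨mem_univ _, htA, y, x, fun h => hyT (hA h), hty.symm, htx.symm, ?_, hne,
        by omega, by omega⟩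
      rw [mem_cl]
      exact ⟨fun h => hx (hA h), fun b hb => hadj b (mem_union_left _ hb)⟩

end Pool.Agent.NRQ
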