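import Pool.Agent.NRQ.TargetsC

/-!
# NRQ, block ZZC: double counting
-/

set_option autoImplicit false

open Finset Classical

namespace Pool.Agent.NRQ

open Pool.Agent Pool.Agent.Lib.Recon Pool.Agent.RNB Pool.Agent.NRC Pool.Agent.NRP

/-- Block ZZC. -/
theorem p_ZZC : T_ZZC := by
  intro V _ G h A
  have h1 : h * (univ.filter (fun y => h < (ZZ G A y).card)).card ≤
      ∑ y ∈ univ.filter (fun y => h < (ZZ G A y).card), (ZZ G A y).card := by
    rw [mul_comm, ← smul_eq_mul]
    refine card_nsmul_le_sum _ _ _ fun y hy => ?_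
    exact (mem_filter.1 hy).2.le
  have h3 : ∑ y ∈ univ.filter (fun y => h < (ZZ G A y).card), (ZZ G A y).card ≤
      ∑ y : V, (ZZ G A y).card := sum_le_sum_of_subset (subset_univ _)
  have h4 : ∑ y : V, (ZZ G A y).card = sm G A := by
    unfold sm
    have h5 := sum_card_bipartiteAbove_eq_sum_card_bipartiteBelow
      (s := (univ : Finset V)) (t := univ.filter (fun z => z ∉ A))
      (r := fun y z => y ∈ SS G A z)
    simp only [bipartiteAbove, bipartiteBelow] at h5
    have h6 : ∀ y : V, (univ.filter (fun z => z ∉ A)).filter (fun z => y ∈ SS G A z) =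
        ZZ G A y := by
      intro y
      unfold ZZ
      rw [filter_filter]
    simp only [h6] at h5
    rw [h5]
    refine sum_congr rfl fun z _ => ?_
    congr 1
    ext y
    simp
  omega

end Pool.Agent.NRQ
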