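import Pool.Agent.NRC.Targets

/-!
# NRQ, code part: definitions (MP_552896_co, polynomially many reconstructions)

Everything below a vertex `v` is computed in the graph without `v`.
-/

set_option autoImplicit false

open Finset Classical

namespace Pool.Agent.NRQ

open Pool.Agent.Lib.Recon Pool.Agent.RNB Pool.Agent.NRC

variable {V : Type} [Fintype V]

/-- the arrows into `y` in the graph without `v` -/
noncomputable def inv (G : SimpleGraph V) (k : ℕ) (A : Finset V) (v y : V) : Finset V :=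
  univ.filter (fun z => z ∉ A ∧ z ≠ v ∧ z ≠ y ∧ (sd G A v z y).card ≤ k)

/-- the vertices which cut some class of the graph without `v` into two large sides -/
noncomputable def EEv (G : SimpleGraph V) (g : ℕ) (A : Finset V) (v : V) : Finset V :=
  univ.filter (fun z => z ∉ A ∧ z ≠ v ∧ ∃ y y', y ∉ A ∧ y ≠ z ∧ y ≠ v ∧ y' ≠ z ∧ y' ≠ v ∧
    y' ∈ cl G A y ∧ ¬ (G.Adj z y ↔ G.Adj z y') ∧ g < (sd G A v z y).card ∧
    g < (sd G A v z y').card)

/-- the refined class of `y` in the graph without `v` -/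
noncomputable def rcv (G : SimpleGraph V) (g : ℕ) (A : Finset V) (v y : V) : Finset V :=
  (cl G (A ∪ EEv G g A v) y).erase v

/-- `b` is hinted from `a`: in the graph without `v`, `b` is in a small list computed from `a` -/
def Hn (G : SimpleGraph V) (g h q d : ℕ) (A : Finset V) (v a b : V) : Prop :=
  b ≠ v ∧
  (((inv G (2 * g - 1) A v a).card ≤ h ∧ (b ∈ inv G (2 * g - 1) A v a ∨
      ∃ t ∈ inv G (2 * g - 1) A v a, ∃ a' ∈ sd G A v t a,
        ((dset G a a').erase v).card ≤ d ∧ b ∈ dset G a a')) ∨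
    ((rcv G g A v a).card ≤ q ∧ ∃ a' ∈ rcv G g A v a,
        ((dset G a a').erase v).card ≤ d ∧ b ∈ dset G a a'))

/-- the vertices hinted from `a` in at most `s` steps -/
noncomputable def RS (G : SimpleGraph V) (g h q d : ℕ) (A : Finset V) (v : V) : ℕ → V → Finset V
  | 0, a => {a}
  | s + 1, a => RS G g h q d A v s a ∪
      univ.filter (fun b => ∃ c ∈ RS G g h q d A v s a, Hn G g h q d A v c b)

/-- the neighbours of `v` are described by a code with hints -/
def Cd (G : SimpleGraph V) (g h q d s : ℕ) (A : Finset V) (v : V) : Prop :=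
  v ∉ A ∧ ∃ (w u : V) (b : Bool) (Z : Finset V), w ≠ v ∧ u ≠ v ∧ Z.card ≤ d ∧
    Z ⊆ RS G g h q d A v s w ∪ RS G g h q d A v s u ∧
    ∀ z, z ≠ v → (G.Adj z v ↔
      if z = u then b = true else if z ∈ Z then ¬ G.Adj z u else G.Adj z u)

/-- the base is contained in `T`; `ZZ G A y` (RNB) = the vertices `z ∉ A` with `y ∈ SS G A z` -/
def Bs (G : SimpleGraph V) (g h : ℕ) (A T : Finset V) : Prop :=
  A ∪ EE G g A ⊆ T ∧ ∀ y, h < (ZZ G A y).card → y ∈ T

/-- the unhit rest classes are large -/
def Rich (G : SimpleGraph V) (g q : ℕ) (A T : Finset V) : Prop :=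
  ∀ y, y ∉ T → y ∈ LA G g q A → (∀ t ∈ T, t ∉ IN G (2 * g) A y) → 4 * g < (cl G T y).card

/-- the vertices of a class outside `T` without an arrow from `T` -/
noncomputable def Un (G : SimpleGraph V) (g : ℕ) (A T C : Finset V) : Finset V :=
  C.filter (fun y => y ∉ T ∧ ∀ t ∈ T, t ∉ IN G (2 * g) A y)

end Pool.Agent.NRQ
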