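import Pool.Agent.NRP.Defs
import Pool.Agent.NRQ.DefsC

/-!
# NRQ, code part: exact targets with complete proofs in the docstrings

One file per target: `Pool/Agent/NRQ/P_X.lean`, theorem `Pool.Agent.NRQ.p_X (other targets) : T_X`.
Notation: `side z y = cl G (insert z A) y`; `sd G A v z y` is `side z y` without `v`;
`In y = IN G (2 * g) A y`, `E = EE G g A`, `rc y = cl G (A ∪ E) y`, `Ev = EEv G g A v`. For `y ∉ B`
always `y ∈ cl G B y`, and `y' ∈ cl G B y` gives `cl G B y' = cl G B y`; `cl` is antitone in `B`.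
-/

set_option autoImplicit false

open Finset Classical

namespace Pool.Agent.NRQ

open Pool.Agent.Lib.Recon Pool.Agent.RNB Pool.Agent.NRC Pool.Agent.NRP

/-! ## A. counting codes -/

/-- HNC. PROOF. If the first alternative of `Hn` is possible for `a` then `|inv| ≤ h` and `b` is in
`inv` or in one of the at most `h * (2 g - 1)` sets `(dset a a').erase v` (`b ≠ v`) with at most `d`
elements (`|sd t a| ≤ 2 g - 1` for `t ∈ inv`). If the second is possible, `|rcv| ≤ q` and `b` is in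
one
of at most `q` sets with at most `d` elements. -/
def T_HNC : Prop := ∀ (V : Type) [Fintype V] (G : SimpleGraph V) (g h q d : ℕ) (A : Finset V)
  (v a : V), (univ.filter (fun b => Hn G g h q d A v a b)).card ≤ h + h * (2 * g) * d + q * d

/-- RSC (from HNC). PROOF. Induction on `s`: `|RS (s + 1) a| ≤ |RS s a| + |RS s a| * D`. -/
def T_RSC : Prop := ∀ (V : Type) [Fintype V] (G : SimpleGraph V) (g h q d : ℕ) (A : Finset V)
  (v : V) (s : ℕ) (a : V),
  (RS G g h q d A v s a).card ≤ (h + h * (2 * g) * d + q * d + 1) ^ s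

/-- IND: everything is computed without `v`. PROOF. `sd K A v z y = sd F A v z y` for `z, y ≠ v`,
`v ∉ A` (see `P_DCB.lean`), so `inv`, `EEv` agree, `rcv` agrees for `y ≠ v`,
`(dset K a a').erase v = (dset F a a').erase v` for `a, a' ≠ v` (all elements of `sd`, `rcv` are
different from `v`), so `Hn` agrees for `a ≠ v`, and `RS` (induction: all elements of `RS s a` are
different from `v` for `a ≠ v`). -/
def T_IND : Prop := ∀ (V : Type) [Fintype V] (F K : SimpleGraph V) (g h q d : ℕ) (A : Finset V)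
  (v : V), v ∉ A → (∀ x y, x ≠ v → y ≠ v → (K.Adj x y ↔ F.Adj x y)) → ∀ (s : ℕ) (a : V), a ≠ v →
  RS K g h q d A v s a = RS F g h q d A v s a

/-- DCQ (from RSC, IND; see `P_DCB.lean`). PROOF. By IND the sets `RS s w`, `RS s u` are those of
`F`.
`K` is determined by `(w, u, b, Z)` (`Z` a set with at most `d` elements in a set with at most
`2 D^s` elements: at most `(2 D^s + 1)^d` sets, images of functions `Fin d → Option _`), as only
`K.Adj z u` with `z, u ≠ v` occurs in the code. -/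
def T_DCQ : Prop := ∀ (V : Type) [Fintype V] (F : SimpleGraph V) (g h q d s : ℕ) (A : Finset V)
  (v : V), (univ.filter (fun K : SimpleGraph V =>
    (∀ x y, x ≠ v → y ≠ v → (K.Adj x y ↔ F.Adj x y)) ∧ Cd K g h q d s A v)).card ≤
    2 * Fintype.card V ^ 2 * (2 * (h + h * (2 * g) * d + q * d + 1) ^ s + 1) ^ d

/-- EQQ: invariance (see `P_EQV.lean`). PROOF. All notions are transported by `σ`:
`sd K (A.image σ) (σ v) (σ z) (σ y) = (sd H A v z y).image σ`, the same for `inv`, `EEv`, `rcv`,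
`dset`, `Hn`, `RS`; the code is `(σ w, σ u, b, Z.image σ)`. -/
def T_EQQ : Prop := ∀ (V : Type) [Fintype V] (H K : SimpleGraph V) (σ : V ≃ V)
  (g h q d s : ℕ) (A : Finset V) (v : V), (∀ x y, H.Adj x y ↔ K.Adj (σ x) (σ y)) →
  Cd H g h q d s A v → Cd K g h q d s (A.image σ) (σ v)

/-- AVQ: averaging, for any invariant property with few graphs off `v` (copy of `P_AVG.lean`, where
`P K A v = Gd K g M A v`, `B = 2 n^2 2^M`). -/
def T_AVQ : Prop := ∀ (V ι : Type) [Fintype V] [Fintype ι] (G : SimpleGraph V)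
  (H : ι → SimpleGraph V) (N B : ℕ) (P : SimpleGraph V → Finset V → V → Prop),
  1 ≤ N → 1 ≤ Fintype.card V → (∀ i v, CardIso G (H i) v v) →
  (∀ i j, i ≠ j → ¬ ∃ α : V ≃ V, ∀ x y, (H i).Adj x y ↔ (H j).Adj (α x) (α y)) →
  (∀ (H K : SimpleGraph V) (σ : V ≃ V) (A : Finset V) (v : V),
    (∀ x y, H.Adj x y ↔ K.Adj (σ x) (σ y)) → P H A v → P K (A.image σ) (σ v)) →
  (∀ (F : SimpleGraph V) (A : Finset V) (v : V), (univ.filter (fun K : SimpleGraph V =>
    (∀ x y, x ≠ v → y ≠ v → (K.Adj x y ↔ F.Adj x y)) ∧ P K A v)).card ≤ B) →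
  (∀ i, Fintype.card (Fin N × (Fin N → V)) ≤ 2 * (univ.filter
    (fun p : Fin N × (Fin N → V) => ∃ v, P (H i) (Bi ∅ p.2 p.1) v)).card) →
  Fintype.card ι ≤ 2 * Fintype.card V ^ 2 * B

/-! ## B. small closed sets give codes -/

/-- EVS. PROOF. (1) `EEv ⊆ EE`: `|sd| ≤ |side|`. (2) `z ∈ E`, `z ∉ Ev`, `z ≠ v` implies
`v ∈ SS G A z`: take `y, y'` from the definition of `EE`. If `y = v` replace `y` by another element
of
`side z y` (more than `g ≥ 1` elements; same adjacency to `z`, same side); so `y, y' ≠ v`. As `z ∉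
Ev`
one of `sd z y`, `sd z y'` has at most `g` elements, say the first; `|side z y| > g`, so
`v ∈ side z y`, `|side z y| = g + 1`, and `|side z y'| ≥ g + 1`; the two sides are disjoint subsets
of
`cl G A y = cl G A v`, and `side z v = side z y`. -/
def T_EVS : Prop := ∀ (V : Type) [Fintype V] (G : SimpleGraph V) (g : ℕ) (A : Finset V) (v : V),
  1 ≤ g → v ∉ A → EEv G g A v ⊆ EE G g A ∧
  ∀ z ∈ EE G g A, z ∉ EEv G g A v → z ≠ v → z ∈ ZZ G A v

/-- RCB (from EVS): the refined class without `v` is small. PROOF. `D = {z ∈ E | z ∉ Ev, z ≠ v}`,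
`|D| ≤ |ZZ G A v| ≤ h` by EVS. `v ∉ E`. Let `x ∈ rcv a`, `x ∉ rc a`, `x ∉ D`: `x ∉ A ∪ E`, so some
`e ∈ D` has `¬ (G.Adj e x ↔ G.Adj e a)`, `e ≠ x, a` (`a ∉ E`). `x, a ≠ v`, `x ∈ cl G A a`, and
`e ∉ Ev`, so `|sd e a| ≤ g` or `|sd e x| ≤ g`; the first is excluded by the hypothesis. For fixed
`e`
all such `x` are in one set `sd e x` (same adjacency to `e`), so there are at most `g` of them. So
`|rcv a| ≤ q + h + h g`. -/
def T_RCB : Prop := ∀ (V : Type) [Fintype V] (G : SimpleGraph V) (g h q : ℕ) (A : Finset V)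
  (v a : V), 1 ≤ g → v ∉ A ∪ EE G g A → a ∉ A ∪ EE G g A → a ≠ v → (ZZ G A v).card ≤ h →
  (cl G (A ∪ EE G g A) a).card ≤ q →
  (∀ e ∈ EE G g A, g < (sd G A v e a).card) → (rcv G g A v a).card ≤ q + h * (g + 1)

/-- NAM (from EVS, RCB, NRC.T_SML): arrows with respect to `T` are hinted. PROOF. `Q = cl G T a`,
`|Q| > 8 e`. `b ∉ T`, `b ≠ a`, `b ≠ v`. The `x ∈ Q`, `x ≠ b`, with `G.Adj b x ↔ G.Adj b a` are in
`cl G (insert b T) a`, at most `2 e`; so there is `a' ∈ Q`, `a' ≠ v`, `a' ≠ b`, `b ∈ dset G a a'`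
(`8 e + 1 - 2 e - 2 ≥ 1`), and `|dset G a a'| < d` by `Nr`. `a' ∉ T`, same neighbours in `T`.
(1) `|cl G A a| ≤ 4 g`: `rcv a ⊆ cl G A a`, `a' ∈ rcv a` (`A ∪ Ev ⊆ A ∪ E ⊆ T`): second alternative.
From now on `|cl G A a| > 4 g`: then `inv (2 g - 1) a ⊆ ZZ G A a`, so `|inv| ≤ h` (`a ∉ T`).
(2) some `t ∈ T` has `t ∉ A` and `|sd t a| ≤ 2 g - 1`: `t ≠ v, a`, `t ∈ inv a`, `a' ∈ sd t a`: first
alternative. (3) `a ∉ LA`, i.e. `|rc a| ≤ q`, and (2) fails: RCB (`E ⊆ T`), second alternative.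
(4) `a ∈ LA`, and (2) fails: no `t ∈ T` is in `In a`: `t ∈ E` is impossible (`rc a ⊆ side t a`, as
the
elements of `rc a` are outside `E`; `q ≥ 2 g`), and otherwise SML gives `|side t a| ≤ g ≤ 2 g - 1`.
By
`Rich` `|Q| > 4 g`. If `b ∈ In a`: `b ∉ E`, SML, `|side b a| ≤ g`, `b ∈ inv a`: first alternative.
Otherwise `|side b a| > 2 g`, and `b ∉ E`, so the `x ∈ cl G A a`, `x ≠ b`, with
`¬ (G.Adj b x ↔ G.Adj b a)` (one side) are at most `g`; so `|Q| ≤ 2 e + g + 1 ≤ 4 g`, a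
contradiction. -/
def T_NAM : Prop := ∀ (V : Type) [Fintype V] (G : SimpleGraph V) (g h q q2 d e : ℕ)
  (A T : Finset V) (v a b : V), 1 ≤ g → 1 ≤ e → 2 * e + 1 ≤ 3 * g → 3 * g + 1 ≤ q →
  q + h * (g + 1) ≤ q2 → 4 * g ≤ q2 → Bs G g h A T → Rich G g q A T → Nr G d T →
  v ∉ T → a ∉ T → a ≠ v → b ≠ v → b ∉ T → 8 * e < (cl G T a).card → b ∈ IN G (2 * e) T a →
  Hn G g h q2 d A v a b

/-- STP: bounded number of steps. PROOF. `X j = RS j w ∩ (W.erase v)`, increasing in `j`, `w ∈ X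
0`. If
`X j = X (j+1)` then `X j` is closed under the steps `a → b` of the hypothesis, so it is `W.erase
v`;
otherwise `|X j| ≥ j + 1` as long as `X j ≠ W.erase v`. So `X s = W.erase v` for `s ≥ |W|`. -/
def T_STP : Prop := ∀ (V : Type) [Fintype V] (G : SimpleGraph V) (g h q d s : ℕ)
  (A W : Finset V) (v w : V) (r : V → V → Prop), W.card ≤ s → w ∈ W → w ≠ v →
  (∀ y ∈ W, y ≠ v → Relation.ReflTransGen (fun a b => b ∈ W ∧ b ≠ v ∧ r a b) w y) →
  (∀ a ∈ W, a ≠ v → ∀ b, b ≠ v → r a b → Hn G g h q d A v a b) →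
  W.erase v ⊆ RS G g h q d A v s w

/-- CDW (from NAM, STP): a small closed set gives a code. PROOF. `Z = dset G u v` (it does not
contain
`u, v`), `|Z| < d` by `Nr` (`u, v ∉ T`, same neighbours in `T`), `b` = truth value of `G.Adj u v`.
Code: for `z ≠ v`, `z ≠ u`: `G.Adj z v ↔ (G.Adj z u` xor `z ∈ Z)`. Let `z ∈ Z`:
`z ∉ T ∪ EE G e T` (same neighbours there). `u ∈ cl G T v`, so by the definition of `EE`
`|cl G (insert z T) u| ≤ e` or `|cl G (insert z T) v| ≤ e`. In the first case `z ∈ IN G (2 e) T u`,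
so `Hn u z` by NAM (`u ∉ T`, `cl G T u = cl G T v`) and `z ∈ RS 1 u ⊆ RS s u`. In the second case
`z ∈ IN G (2 e) T v ⊆ W`; if `w ≠ v` in `W` is given by the hypothesis then `z ∈ W.erase v ⊆ RS s w`
by STP (`r a b := b ∈ IN G (2 e) T a`; NAM: all elements of `IN G (2 e) T a` are outside `T`). If
`W = {v}` this case does not occur (`z ≠ v`), take `w = u`. -/
def T_CDW : Prop := ∀ (V : Type) [Fintype V] (G : SimpleGraph V) (g h q q2 d e s : ℕ)
  (A T W : Finset V) (u v : V), 1 ≤ g → 1 ≤ e → 2 * e + 1 ≤ 3 * g → 3 * g + 1 ≤ q →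
  q + h * (g + 1) ≤ q2 → 4 * g ≤ q2 → Bs G g h A T → Rich G g q A T → Nr G d T →
  1 ≤ s → W.card ≤ s → v ∈ W → u ≠ v → u ∈ cl G (T ∪ EE G e T) v →
  (∀ y ∈ W, y ∉ T ∧ 8 * e < (cl G T y).card ∧ IN G (2 * e) T y ⊆ W) →
  (W = {v} ∨ ∃ w ∈ W, w ≠ v ∧ ∀ y ∈ W, y ≠ v →
    Relation.ReflTransGen (fun a b => b ∈ W ∧ b ≠ v ∧ b ∈ IN G (2 * e) T a) w y) →
  Cd G g h q2 d s A v

/-- BET (from CDW, NRC.T_NCV): the other levels. PROOF. `Q ⊆ PL ⊆ LA G e qe T`: for `y ∈ Q`: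
`y ∉ T ∪ EE G e T`, `8 e ≤ qe < |cl G (T ∪ EE G e T) y| ≤ |cl G T y|`. If `|Q| ≥ 2`: NCV with
`r a b := b ∈ IN G (2 e) T a` gives `v, w`. If `|Q| = 1`, `Q = {v}`. Take `u ≠ v` in
`cl G (T ∪ EE G e T) v` (more than `8` elements) and apply CDW with `W = Q`, `s = M`
(`1 ≤ |Q| ≤ M`). -/
def T_BET : Prop := ∀ (V : Type) [Fintype V] (G : SimpleGraph V) (g h q q2 d e qe M : ℕ)
  (A T T0 Q : Finset V), 1 ≤ g → 1 ≤ e → 2 * e + 1 ≤ 3 * g → 3 * g + 1 ≤ q →
  q + h * (g + 1) ≤ q2 → 4 * g ≤ q2 → 8 * e ≤ qe → Bs G g h A T → Rich G g q A T →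
  Nr G d T → T ∪ EE G e T ⊆ T0 → Sc (IN G (2 * e) T) (PL G e qe T T0) M Q →
  ∃ v, Cd G g h q2 d M A v

/-! ## C. enrichment -/

/-- UNC: unhit vertices of one refined class form one class. PROOF. `rc y = cl G (A ∪ E) y`,
`|rc y| > q ≥ 2 g`. Let `x ∈ rc y` (`x ∉ A ∪ E`, `rc x = rc y`), `x ∉ T`. For `t ∈ A ∪ E` the
vertices
`x` and `y` have the same adjacency, and `t ∉ In x`: this is clear for `t ∈ A`, and for `t ∈ E`
`rc x ⊆ side t x` (the elements of `rc x` are outside `A ∪ E`, so `≠ t`), so `|side t x| > 2 g`. Let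
`t ∈ T`, `t ∉ A ∪ E`: `t ≠ x, y`, and `|side t y| > 2 g` (`t ∉ In y`). If `x, y` have the same
adjacency to `t` then `side t x = side t y`, so `t ∉ In x`. Otherwise `|side t x| ≤ g` (else
`t ∈ E`), so `t ∈ In x`. So `x` has the neighbours of `y` in `T` iff no `t ∈ T` is in `In x`. -/
def T_UNC : Prop := ∀ (V : Type) [Fintype V] (G : SimpleGraph V) (g q : ℕ) (A T : Finset V)
  (y : V), 2 * g ≤ q → A ∪ EE G g A ⊆ T → y ∉ T → y ∈ LA G g q A →
  (∀ t ∈ T, t ∉ IN G (2 * g) A y) → cl G T y = Un G g A T (cl G (A ∪ EE G g A) y)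

/-- RIC (from UNC). PROOF. `𝒞` = the image of `LA` under `rc`; the elements of `𝒞` are pairwise
disjoint and have more than `q` elements, so `q |𝒞| ≤ n`. `ex T' = #{C ∈ 𝒞 | Un C T' = ∅}`. Among
the
sets `T' ⊇ T` with `|T' \ T| ≤ 4 g * ex T'` (for example `T`) take one with `ex T'` maximal. It is
rich: otherwise there is `y ∉ T'`, `y ∈ LA`, without arrow from `T'`, with `|cl G T' y| ≤ 4 g`. Let
`T2 = T' ∪ cl G T' y`, `C = rc y`. By UNC `Un C T' = cl G T' y ∋ y`, and `Un C T2 ⊆ Un C T'` has no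
elements outside `T2`, so it is empty; `Un` is antitone in `T`, so `ex T2 ≥ ex T' + 1` and
`|T2 \ T| ≤ 4 g * ex T' + 4 g ≤ 4 g * ex T2`, a contradiction. `|T' \ T| ≤ 4 g |𝒞|`. -/
def T_RIC : Prop := ∀ (V : Type) [Fintype V] (G : SimpleGraph V) (g q : ℕ) (A T : Finset V),
  2 * g ≤ q → A ∪ EE G g A ⊆ T →
  ∃ T' : Finset V, T ⊆ T' ∧ Rich G g q A T' ∧ q * (T' \ T).card ≤ 4 * g * Fintype.card V

/-- ZZC. PROOF. `h * #Y ≤ ∑ y ∈ Y, |ZZ G A y| ≤ ∑ y, #{z ∉ A | y ∈ SS G A z} = sm G A` (double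
counting, see `P_EHI.lean`). -/
def T_ZZC : Prop := ∀ (V : Type) [Fintype V] (G : SimpleGraph V) (h : ℕ) (A : Finset V),
  h * (univ.filter (fun y => h < (ZZ G A y).card)).card ≤ sm G A

/-! ## D. codes of the first level -/

/-- AL1 (from NRC: T_SML, T_GDW, T_NCV). PROOF. `Q ⊆ PL ⊆ LA`. `|Q| ≥ 2`: NCV with
`r a b := b ∈ IN G (2 g) A a` gives `v, w`, GDW with `W = Q` gives `Gd G g M A v` with some
`(w', u, b, S)`; take `W = BR G g A v w'` in `Gd1`. `|Q| = 1`, `Q = {v}`: `In v = ∅` (`In v ⊆ {v}`),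
take `W = S = ∅`, `u ∈ rc v`, `u ≠ v` (`|rc v| > q ≥ 2`), `b` = truth value of `G.Adj u v`; the
condition is proved as in (2) of GDW (`P_GDW.lean`): let `z ≠ v, u`. If `z ∈ A`:
`G.Adj z v ↔ G.Adj z u`. If `z ∉ A`: `|side z v| > 2 g`. If `|sd z u| ≤ g` then
`|side z u| ≤ g + 1 ≤ 2 g`, so `side z u ≠ side z v` and the adjacencies differ (`u ∈ cl G A v`). If
`|sd z u| > g` and the adjacencies differed, then `z ∈ E` and `u ∈ rc v` gives a contradiction. -/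
def T_AL1 : Prop := ∀ (V : Type) [Fintype V] (G : SimpleGraph V) (g q M : ℕ)
  (A T0 Q : Finset V), 1 ≤ g → 3 * g + 1 ≤ q →
  Sc (IN G (2 * g) A) (PL G g q A T0) M Q → ∃ v, Gd1 G g M A v

/-- DC1 (from NRC.T_DCB). PROOF. `Gd1 K g M A v` implies `Gd K g M A v` (if `W = BR ..`) or
(`W = ∅`, `S = ∅`) that the neighbours of `v` are given by `(u, b)`: for `z ≠ v`: `K.Adj z v` iff
`if z = u then b = true else if z ∈ A then K.Adj z u else (K.Adj z u ↔ ¬ |sd K A v z u| ≤ g)`, with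
`u ≠ v`, `v ∉ A`. The second property holds for at most `2 n` graphs `K` (`sd K A v z u = sd F A v
z u`,
see `sd_eq`, `inj` in `P_DCB.lean`; `K` is determined by `(u, b)`). `2 n ≤ 2 n^2 2^M`. -/
def T_DC1 : Prop := ∀ (V : Type) [Fintype V] (F : SimpleGraph V) (g M : ℕ) (A : Finset V)
  (v : V), (univ.filter (fun K : SimpleGraph V =>
    (∀ x y, x ≠ v → y ≠ v → (K.Adj x y ↔ F.Adj x y)) ∧ Gd1 K g M A v)).card ≤
    4 * Fintype.card V ^ 2 * 2 ^ M

/-- EQ1. PROOF. As `P_EQV.lean` (`mem_im`, `card_sd`, `BR_im`): the code is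
`(W.image σ, S.image σ, σ u, b)`; `W = BR H g A v w` gives
`W.image σ = BR K g (A.image σ) (σ v) (σ w)`. -/
def T_EQ1 : Prop := ∀ (V : Type) [Fintype V] (H K : SimpleGraph V) (σ : V ≃ V) (g M : ℕ)
  (A : Finset V) (v : V), (∀ x y, H.Adj x y ↔ K.Adj (σ x) (σ y)) → Gd1 H g M A v →
  Gd1 K g M (A.image σ) (σ v)

end Pool.Agent.NRQ
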